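import Mathlib

set_option autoImplicit false

/-! The permutohedral tile: basic facts. -/

namespace Pool.Agent.Helper37.Lat

open Finset

variable {d : ℕ}

/-- The bilinear form `2d⟨x,y⟩ - σ(x)σ(y)`. -/
def B (x y : Fin d → ℝ) : ℝ := 2 * d * ∑ i, x i * y i - (∑ i, x i) * ∑ i, y i

/-- indicator vector -/
def ind (I : Finset (Fin d)) : Fin d → ℝ := fun i => if i ∈ I then 1 else 0

lemma B_comm (x y : Fin d → ℝ) : B x y = B y x := by
  unfold B
  rw [mul_comm (∑ i, x i)]
  congr 2
  exact Finset.sum_congr rfl fun i _ => mul_comm _ _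

lemma B_add_left (x x' y : Fin d → ℝ) : B (x + x') y = B x y + B x' y := by
  simp only [B, Pi.add_apply, add_mul, Finset.sum_add_distrib]; ring

lemma B_smul_left (c : ℝ) (x y : Fin d → ℝ) : B (c • x) y = c * B x y := by
  simp only [B, Pi.smul_apply, smul_eq_mul, mul_assoc, ← Finset.mul_sum]; ring

lemma B_sub_left (x x' y : Fin d → ℝ) : B (x - x') y = B x y - B x' y := by
  simp only [B, Pi.sub_apply, sub_mul, Finset.sum_sub_distrib]; ring

lemma B_neg_left (x y : Fin d → ℝ) : B (-x) y = - B x y := by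
  have := B_smul_left (-1) x y
  simpa using this

lemma B_add_right (x y y' : Fin d → ℝ) : B x (y + y') = B x y + B x y' := by
  rw [B_comm, B_add_left, B_comm y, B_comm y']

lemma B_sub_right (x y y' : Fin d → ℝ) : B x (y - y') = B x y - B x y' := by
  rw [B_comm, B_sub_left, B_comm y, B_comm y']

lemma B_zero_left (y : Fin d → ℝ) : B 0 y = 0 := by simp [B]

lemma B_self_ge (x : Fin d → ℝ) : (d : ℝ) * ∑ i, x i ^ 2 ≤ B x x := by
  have h1 : (∑ i, x i) ^ 2 ≤ (d : ℝ) * ∑ i, x i ^ 2 := by
    have := sq_sum_le_card_mul_sum_sq (s := (Finset.univ : Finset (Fin d))) (f := x)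
    simpa using this
  unfold B
  have h2 : ∑ i, x i * x i = ∑ i, x i ^ 2 := Finset.sum_congr rfl fun i _ => by ring
  rw [h2]
  nlinarith

lemma B_self_pos {x : Fin d → ℝ} (hx : x ≠ 0) : 0 < B x x := by
  refine lt_of_lt_of_le ?_ (B_self_ge x)
  obtain ⟨i, hi⟩ := Function.ne_iff.mp hx
  have hd : 0 < d := lt_of_le_of_lt (Nat.zero_le _) i.2
  have h1 : 0 < ∑ i, x i ^ 2 := by
    refine Finset.sum_pos' (fun i _ => sq_nonneg _) ⟨i, Finset.mem_univ _, ?_⟩
    have : x i ≠ 0 := hi
    positivity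
  positivity

lemma sum_ind (I : Finset (Fin d)) : ∑ i, ind I i = (I.card : ℝ) := by
  simp [ind]

lemma sum_mul_ind (x : Fin d → ℝ) (I : Finset (Fin d)) : ∑ i, x i * ind I i = ∑ i ∈ I, x i := by
  simp [ind, Finset.sum_ite_mem]

lemma B_ind (x : Fin d → ℝ) (I : Finset (Fin d)) :
    B x (ind I) = 2 * d * ∑ i ∈ I, x i - (∑ i, x i) * I.card := by
  unfold B; rw [sum_ind, sum_mul_ind]

lemma B_ind_ind (I K : Finset (Fin d)) :
    B (ind I) (ind K) = 2 * d * ((I ∩ K).card : ℝ) - I.card * K.card := by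
  rw [B_ind, sum_ind]
  congr 2
  simp only [ind, Finset.sum_ite_mem]
  rw [Finset.inter_comm]
  simp

/-- `q I = B(1_I,1_I)`. -/
def q (I : Finset (Fin d)) : ℝ := B (ind I) (ind I)

lemma q_eq (I : Finset (Fin d)) : q I = I.card * (2 * d - I.card) := by
  unfold q; rw [B_ind_ind, Finset.inter_self]; ring

lemma card_le_d (I : Finset (Fin d)) : (I.card : ℝ) ≤ d := by
  have := Finset.card_le_univ I
  simp only [Fintype.card_fin] at this
  exact_mod_cast this

lemma q_pos {I : Finset (Fin d)} (hI : I.Nonempty) : 0 < q I := by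
  rw [q_eq]
  have h1 : (0 : ℝ) < I.card := by exact_mod_cast hI.card_pos
  have h2 := card_le_d I
  have : (0 : ℝ) < 2 * d - I.card := by linarith
  positivity

lemma q_nonneg (I : Finset (Fin d)) : 0 ≤ q I := by
  rcases I.eq_empty_or_nonempty with h | h
  · subst h; simp [q_eq]
  · exact (q_pos h).le

/-- strictness of the facets -/
lemma abs_B_ind_ind_lt {I K : Finset (Fin d)} (hI : I.Nonempty) (hK : K.Nonempty) (h : I ≠ K) :
    |B (ind I) (ind K)| < q K := by
  rw [B_ind_ind, q_eq, abs_lt]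
  have hi : (0 : ℝ) < I.card := by exact_mod_cast hI.card_pos
  have hk : (0 : ℝ) < K.card := by exact_mod_cast hK.card_pos
  have hid := card_le_d I
  have hkd := card_le_d K
  have hd : (0 : ℝ) < d := by linarith
  have h0 : (0 : ℝ) ≤ (I ∩ K).card := by positivity
  constructor
  · -- |I| + |K| = |I ∪ K| + |I ∩ K| ≤ d + |I ∩ K|
    have h1 : (I.card : ℝ) + K.card ≤ d + (I ∩ K).card := by
      have h2 := Finset.card_union_add_card_inter I K
      have h3 := card_le_d (I ∪ K)
      have h4 : ((I ∪ K).card : ℝ) + (I ∩ K).card = I.card + K.card := by exact_mod_cast h2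
      linarith
    nlinarith
  · by_cases hsub : K ⊆ I
    · have h1 : (I ∩ K) = K := Finset.inter_eq_right.mpr hsub
      have h2 : K.card < I.card := Finset.card_lt_card
        (lt_of_le_of_ne hsub (Ne.symm h))
      have h3 : (K.card : ℝ) < I.card := by exact_mod_cast h2
      rw [h1]
      nlinarith
    · have h1 : (1 : ℝ) ≤ (K \ I).card := by
        have : (K \ I).Nonempty := Finset.sdiff_nonempty.mpr hsub
        exact_mod_cast this.card_pos
      have h2 : ((K \ I).card : ℝ) + (I ∩ K).card = K.card := by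
        rw [Finset.inter_comm]
        exact_mod_cast Finset.card_sdiff_add_card_inter K I
      have h3 : ((I ∩ K).card : ℝ) ≤ I.card := by
        exact_mod_cast Finset.card_le_card Finset.inter_subset_left
      nlinarith

lemma B_nested_nonneg {I K : Finset (Fin d)} (h : I ⊆ K) : 0 ≤ B (ind K) (ind I) := by
  rw [B_ind_ind, Finset.inter_eq_right.mpr h]
  have := card_le_d K
  have h0 : (0 : ℝ) ≤ I.card := by positivity
  nlinarith

lemma B_disjoint_nonpos {I K : Finset (Fin d)} (h : Disjoint I K) : B (ind I) (ind K) ≤ 0 := by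
  rw [B_ind_ind, Finset.disjoint_iff_inter_eq_empty.mp h]
  have h0 : (0 : ℝ) ≤ I.card := by positivity
  have h1 : (0 : ℝ) ≤ K.card := by positivity
  simp only [Finset.card_empty, Nat.cast_zero, mul_zero, zero_sub]
  nlinarith

lemma ind_add (I K : Finset (Fin d)) : ind I + ind K = ind (I ∪ K) + ind (I ∩ K) := by
  funext i
  simp only [ind, Pi.add_apply, Finset.mem_union, Finset.mem_inter]
  by_cases h1 : i ∈ I <;> by_cases h2 : i ∈ K <;> simp [h1, h2]

lemma ind_sub (I K : Finset (Fin d)) : ind I - ind K = ind (I \ K) - ind (K \ I) := by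
  funext i
  simp only [ind, Pi.sub_apply, Finset.mem_sdiff]
  by_cases h1 : i ∈ I <;> by_cases h2 : i ∈ K <;> simp [h1, h2]

/-- Central symmetry of the facets of the tile. -/
lemma facet_symm {x : Fin d → ℝ} (hx : ∀ K : Finset (Fin d), |B x (ind K)| ≤ q K / 2)
    {I : Finset (Fin d)} (hI : B x (ind I) = q I / 2) (K : Finset (Fin d)) :
    |B (x - ind I) (ind K)| ≤ q K / 2 := by
  rw [B_sub_left, abs_le]
  constructor
  · -- uses `1_I - 1_K`
    have h1 : B x (ind I) - B x (ind K) = B x (ind (I \ K)) - B x (ind (K \ I)) := by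
      rw [← B_sub_right, ind_sub, B_sub_right]
    have h2 := (abs_le.mp (hx (I \ K))).2
    have h3 := (abs_le.mp (hx (K \ I))).1
    have h4 : B (ind I - ind K) (ind I - ind K) =
        q (I \ K) + q (K \ I) - 2 * B (ind (I \ K)) (ind (K \ I)) := by
      rw [ind_sub, B_sub_left, B_sub_right, B_sub_right, B_comm (ind (K \ I)) (ind (I \ K))]
      unfold q; ring
    have h5 : B (ind I - ind K) (ind I - ind K) = q I + q K - 2 * B (ind I) (ind K) := by
      rw [B_sub_left, B_sub_right, B_sub_right, B_comm (ind K) (ind I)]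
      unfold q; ring
    have h6 : B (ind (I \ K)) (ind (K \ I)) ≤ 0 := B_disjoint_nonpos disjoint_sdiff_sdiff
    linarith
  · have h1 : B x (ind I) + B x (ind K) = B x (ind (I ∪ K)) + B x (ind (I ∩ K)) := by
      rw [← B_add_right, ind_add, B_add_right]
    have h2 := (abs_le.mp (hx (I ∪ K))).2
    have h3 := (abs_le.mp (hx (I ∩ K))).2
    have h4 : B (ind I + ind K) (ind I + ind K) =
        q (I ∪ K) + q (I ∩ K) + 2 * B (ind (I ∪ K)) (ind (I ∩ K)) := by
      rw [ind_add, B_add_left, B_add_right, B_add_right, B_comm (ind (I ∩ K)) (ind (I ∪ K))]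
      unfold q; ring
    have h5 : B (ind I + ind K) (ind I + ind K) = q I + q K + 2 * B (ind I) (ind K) := by
      rw [B_add_left, B_add_right, B_add_right, B_comm (ind K) (ind I)]
      unfold q; ring
    have h6 : 0 ≤ B (ind (I ∪ K)) (ind (I ∩ K)) :=
      B_nested_nonneg (Finset.inter_subset_left.trans Finset.subset_union_left)
    linarith

/-- integer vectors as real vectors -/
def zr (z : Fin d → ℤ) : Fin d → ℝ := fun i => (z i : ℝ)

lemma zr_add (z w : Fin d → ℤ) : zr (z + w) = zr z + zr w := by funext i; simp [zr]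
lemma zr_sub (z w : Fin d → ℤ) : zr (z - w) = zr z - zr w := by funext i; simp [zr]
lemma zr_neg (z : Fin d → ℤ) : zr (-z) = - zr z := by funext i; simp [zr]

/-- integer indicator -/
def zind (I : Finset (Fin d)) : Fin d → ℤ := fun i => if i ∈ I then 1 else 0

lemma zr_zind (I : Finset (Fin d)) : zr (zind I) = ind I := by
  funext i; simp only [zr, zind, ind]; split_ifs <;> simp

lemma zr_injective : Function.Injective (zr (d := d)) := by
  intro z w h
  funext i
  have := congrFun h i
  simpa [zr] using this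

lemma exists_facet_pos {z : Fin d → ℤ} (hz : ∃ i, 1 ≤ z i) :
    ∃ I : Finset (Fin d), I.Nonempty ∧ q I ≤ B (zr z) (ind I) ∧
      (z ≠ zind I → q I < B (zr z) (ind I)) := by
  classical
  obtain ⟨i0, hi0⟩ := hz
  set I : Finset (Fin d) := Finset.univ.filter (fun i => 1 ≤ z i) with hI
  have hmem : ∀ i, i ∈ I ↔ 1 ≤ z i := by intro i; simp [hI]
  have hne : I.Nonempty := ⟨i0, (hmem i0).mpr hi0⟩
  -- y = z - 1_I
  set y : Fin d → ℝ := zr z - ind I with hy
  have hyI : ∀ i ∈ I, 0 ≤ y i := by
    intro i hi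
    have h1 := (hmem i).mp hi
    have : (1 : ℝ) ≤ z i := by exact_mod_cast h1
    simp only [hy, zr, ind, Pi.sub_apply, if_pos hi]; linarith
  have hyn : ∀ i, i ∉ I → y i ≤ 0 := by
    intro i hi
    have h1 : ¬ (1 ≤ z i) := fun h => hi ((hmem i).mpr h)
    have : (z i : ℝ) ≤ 0 := by
      have : z i ≤ 0 := by omega
      exact_mod_cast this
    simp only [hy, zr, ind, Pi.sub_apply, if_neg hi]; linarith
  have hsplit : ∑ i, y i = ∑ i ∈ I, y i + ∑ i ∈ Iᶜ, y i := (Finset.sum_add_sum_compl I y).symm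
  have hs1 : 0 ≤ ∑ i ∈ I, y i := Finset.sum_nonneg hyI
  have hs2 : ∑ i ∈ Iᶜ, y i ≤ 0 := Finset.sum_nonpos fun i hi => hyn i (by simpa using hi)
  have hB : B (zr z) (ind I) = q I + B y (ind I) := by
    rw [hy, B_sub_left]; unfold q; ring
  have hi : (0 : ℝ) < I.card := by exact_mod_cast hne.card_pos
  have hid := card_le_d I
  have hBy : B y (ind I) = (2 * d - I.card) * ∑ i ∈ I, y i - I.card * ∑ i ∈ Iᶜ, y i := by
    rw [B_ind, hsplit]; ring
  have h2d : (0 : ℝ) < 2 * d - I.card := by linarith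
  refine ⟨I, hne, ?_, ?_⟩
  · rw [hB, hBy]
    have := mul_nonneg h2d.le hs1
    have : I.card * ∑ i ∈ Iᶜ, y i ≤ 0 := mul_nonpos_of_nonneg_of_nonpos hi.le hs2
    linarith
  · intro hzI
    -- some y i ≠ 0
    have hyne : ∃ i, y i ≠ 0 := by
      by_contra hall
      push Not at hall
      apply hzI
      apply zr_injective
      rw [zr_zind]
      have : y = 0 := funext hall
      rw [hy] at this
      exact sub_eq_zero.mp this
    obtain ⟨j, hj⟩ := hyne
    rw [hB, hBy]
    by_cases hjI : j ∈ I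
    · have h3 : 0 < ∑ i ∈ I, y i :=
        Finset.sum_pos' hyI ⟨j, hjI, lt_of_le_of_ne (hyI j hjI) (Ne.symm hj)⟩
      have := mul_pos h2d h3
      have : I.card * ∑ i ∈ Iᶜ, y i ≤ 0 := mul_nonpos_of_nonneg_of_nonpos hi.le hs2
      linarith
    · have h3 : ∑ i ∈ Iᶜ, y i < 0 := by
        refine Finset.sum_neg' (fun i hi => hyn i (by simpa using hi)) ⟨j, by simpa using hjI, ?_⟩
        exact lt_of_le_of_ne (hyn j hjI) hj
      have := mul_nonneg h2d.le hs1
      have : I.card * ∑ i ∈ Iᶜ, y i < 0 := mul_neg_of_pos_of_neg hi h3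
      linarith

/-- The integer lattice is admissible for the (doubled) tile; equality characterised. -/
lemma exists_facet {z : Fin d → ℤ} (hz : z ≠ 0) :
    ∃ I : Finset (Fin d), I.Nonempty ∧ q I ≤ |B (zr z) (ind I)| ∧
      (z ≠ zind I → z ≠ - zind I → q I < |B (zr z) (ind I)|) := by
  obtain ⟨i, hi⟩ := Function.ne_iff.mp hz
  rcases lt_or_gt_of_ne hi with h | h
  · obtain ⟨I, h1, h2, h3⟩ := exists_facet_pos (z := -z) ⟨i, by simp at h ⊢; omega⟩
    refine ⟨I, h1, ?_, ?_⟩
    · rw [zr_neg, B_neg_left] at h2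
      exact h2.trans (neg_le_abs _)
    · intro _ hn
      have := h3 (fun e => hn (by rw [← e, neg_neg]))
      rw [zr_neg, B_neg_left] at this
      exact this.trans_le (neg_le_abs _)
  · obtain ⟨I, h1, h2, h3⟩ := exists_facet_pos (z := z) ⟨i, by simp at h; omega⟩
    exact ⟨I, h1, h2.trans (le_abs_self _), fun hn _ => (h3 hn).trans_le (le_abs_self _)⟩

/-- The tile covers. -/
lemma exists_int_close (x : Fin d → ℝ) :
    ∃ z : Fin d → ℤ, ∀ I : Finset (Fin d), |B (x - zr z) (ind I)| ≤ q I / 2 := by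
  classical
  rcases Nat.eq_zero_or_pos d with hd | hd
  · subst hd
    refine ⟨0, fun I => ?_⟩
    have : I = ∅ := Finset.eq_empty_of_isEmpty I
    subst this
    rw [B_ind, q_eq]; simp
  have hd' : (1 : ℝ) ≤ d := by exact_mod_cast hd
  -- the set of competitors
  set S : Set (Fin d → ℤ) := {z | B (x - zr z) (x - zr z) ≤ B x x} with hS
  have h0 : (0 : Fin d → ℤ) ∈ S := by
    have : zr (0 : Fin d → ℤ) = 0 := by funext i; simp [zr]
    simp [hS, this]
  have hfin : S.Finite := by
    set C : ℝ := Real.sqrt (B x x) with hC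
    have hsub : S ⊆ Set.Icc (fun i => ⌊x i - C⌋) (fun i => ⌈x i + C⌉) := by
      intro z hz
      have h1 : B (x - zr z) (x - zr z) ≤ B x x := hz
      have h2 := B_self_ge (x - zr z)
      have h3 : ∀ i, |x i - z i| ≤ C := by
        intro i
        apply Real.abs_le_sqrt
        have h4 : (x i - z i) ^ 2 ≤ ∑ i, (x - zr z) i ^ 2 :=
          Finset.single_le_sum (f := fun i => (x - zr z) i ^ 2) (fun i _ => sq_nonneg _)
            (Finset.mem_univ i)
        have h5 : 0 ≤ ∑ i, (x - zr z) i ^ 2 := Finset.sum_nonneg fun i _ => sq_nonneg _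
        nlinarith
      constructor
      · intro i
        have := (abs_le.mp (h3 i)).2
        have h6 : (⌊x i - C⌋ : ℝ) ≤ z i := (Int.floor_le _).trans (by linarith)
        exact_mod_cast h6
      · intro i
        have := (abs_le.mp (h3 i)).1
        have h6 : (z i : ℝ) ≤ ⌈x i + C⌉ := le_trans (by linarith) (Int.le_ceil _)
        exact_mod_cast h6
    exact (Set.finite_Icc _ _).subset hsub
  obtain ⟨z, hzS, hz⟩ := S.exists_min_image (fun z => B (x - zr z) (x - zr z)) hfin ⟨0, h0⟩
  have hmin : ∀ w : Fin d → ℤ, B (x - zr z) (x - zr z) ≤ B (x - zr w) (x - zr w) := by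
    intro w
    by_cases hw : w ∈ S
    · exact hz w hw
    · have h1 : B x x < B (x - zr w) (x - zr w) := not_le.mp hw
      exact (le_trans hzS h1.le)
  refine ⟨z, fun I => ?_⟩
  have key : ∀ (y v : Fin d → ℝ), B (y - v) (y - v) = B y y - 2 * B y v + B v v := by
    intro y v
    rw [B_sub_left, B_sub_right, B_sub_right, B_comm v y]; ring
  have key2 : ∀ (y v : Fin d → ℝ), B (y + v) (y + v) = B y y + 2 * B y v + B v v := by
    intro y v
    rw [B_add_left, B_add_right, B_add_right, B_comm v y]; ring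
  have h1 := hmin (z + zind I)
  have h2 := hmin (z - zind I)
  have e1 : x - zr (z + zind I) = (x - zr z) - ind I := by
    rw [zr_add, zr_zind]; abel
  have e2 : x - zr (z - zind I) = (x - zr z) + ind I := by
    rw [zr_sub, zr_zind]; abel
  rw [e1, key (x - zr z) (ind I)] at h1
  rw [e2, key2 (x - zr z) (ind I)] at h2
  rw [abs_le]
  unfold q
  constructor <;> linarith

end Pool.Agent.Helper37.Lat
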