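import Pool.Agent.Helper37.Lat.L1

set_option autoImplicit false

/-! The tile norm and uniqueness of the tiling lattice. -/

namespace Pool.Agent.Helper37.Lat

open Finset Filter Topology

variable {d : ℕ}

/-- index set of the facets -/
abbrev J (d : ℕ) := {I : Finset (Fin d) // I.Nonempty}

/-- facet functionals, normalised by `f I (1_I) = 1` -/
noncomputable def f (I : J d) (x : Fin d → ℝ) : ℝ := B x (ind I.1) / q I.1

lemma f_add (I : J d) (x y : Fin d → ℝ) : f I (x + y) = f I x + f I y := by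
  unfold f; rw [B_add_left, add_div]

lemma f_sub (I : J d) (x y : Fin d → ℝ) : f I (x - y) = f I x - f I y := by
  unfold f; rw [B_sub_left, sub_div]

lemma f_smul (I : J d) (c : ℝ) (x : Fin d → ℝ) : f I (c • x) = c * f I x := by
  unfold f; rw [B_smul_left, mul_div_assoc]

lemma f_neg (I : J d) (x : Fin d → ℝ) : f I (-x) = - f I x := by
  unfold f; rw [B_neg_left, neg_div]

lemma f_zero (I : J d) : f I (0 : Fin d → ℝ) = 0 := by
  unfold f; rw [B_zero_left, zero_div]

lemma f_self (I : J d) : f I (ind I.1) = 1 := by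
  unfold f
  have := q_pos I.2
  exact div_self this.ne'

lemma abs_f_ind_lt {I K : J d} (h : I ≠ K) : |f K (ind I.1)| < 1 := by
  unfold f
  have hq := q_pos K.2
  rw [abs_div, abs_of_pos hq, div_lt_one hq]
  exact abs_B_ind_ind_lt I.2 K.2 (fun e => h (Subtype.ext e))

lemma continuous_f (I : J d) : Continuous (f I) := by
  unfold f B; fun_prop

/-- `|f I x| ≤ r` in terms of `B` -/
lemma abs_f_le_iff (I : J d) (x : Fin d → ℝ) (r : ℝ) :
    |f I x| ≤ r ↔ |B x (ind I.1)| ≤ r * q I.1 := by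
  unfold f
  have hq := q_pos I.2
  rw [abs_div, abs_of_pos hq, div_le_iff₀ hq]

/-- weighted tile norm -/
noncomputable def nm (w : J d → ℝ) (x : Fin d → ℝ) : ℝ := ‖fun I : J d => w I * f I x‖

lemma nm_nonneg (w : J d → ℝ) (x : Fin d → ℝ) : 0 ≤ nm w x := norm_nonneg _

lemma nm_zero (w : J d → ℝ) : nm w (0 : Fin d → ℝ) = 0 := by
  unfold nm; simp only [f_zero, mul_zero]; exact norm_zero

lemma nm_add_le (w : J d → ℝ) (x y : Fin d → ℝ) : nm w (x + y) ≤ nm w x + nm w y := by
  unfold nm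
  refine le_trans (le_of_eq ?_) (norm_add_le _ _)
  congr 1; funext I; simp only [Pi.add_apply, f_add]; ring

lemma nm_sub_le (w : J d → ℝ) (x y : Fin d → ℝ) : nm w (x - y) ≤ nm w x + nm w y := by
  unfold nm
  refine le_trans (le_of_eq ?_) (norm_sub_le _ _)
  congr 1; funext I; simp only [Pi.sub_apply, f_sub]; ring

lemma nm_smul (w : J d → ℝ) (c : ℝ) (x : Fin d → ℝ) : nm w (c • x) = |c| * nm w x := by
  unfold nm
  rw [← Real.norm_eq_abs, ← norm_smul]
  congr 1; funext I; simp only [Pi.smul_apply, f_smul, smul_eq_mul]; ring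

lemma nm_neg (w : J d → ℝ) (x : Fin d → ℝ) : nm w (-x) = nm w x := by
  have := nm_smul w (-1) x
  simpa using this

lemma nm_sub_comm (w : J d → ℝ) (x y : Fin d → ℝ) : nm w (x - y) = nm w (y - x) := by
  rw [← nm_neg]; congr 1; abel

lemma continuous_nm (w : J d → ℝ) : Continuous (nm w) := by
  unfold nm
  refine Continuous.norm ?_
  exact continuous_pi fun I => continuous_const.mul (continuous_f I)

lemma nm_le_iff (w : J d → ℝ) (x : Fin d → ℝ) {r : ℝ} (hr : 0 ≤ r) :
    nm w x ≤ r ↔ ∀ I, |w I * f I x| ≤ r := pi_norm_le_iff_of_nonneg hr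

lemma nm_lt_iff (w : J d → ℝ) (x : Fin d → ℝ) {r : ℝ} (hr : 0 < r) :
    nm w x < r ↔ ∀ I, |w I * f I x| < r := pi_norm_lt_iff hr

lemma le_nm (w : J d → ℝ) (x : Fin d → ℝ) (I : J d) : |w I * f I x| ≤ nm w x :=
  norm_le_pi_norm (fun I : J d => w I * f I x) I

/-- the tile norm -/
noncomputable def NT (x : Fin d → ℝ) : ℝ := nm (fun _ => 1) x

lemma NT_le_iff (x : Fin d → ℝ) {r : ℝ} (hr : 0 ≤ r) : NT x ≤ r ↔ ∀ I, |f I x| ≤ r := by
  unfold NT; rw [nm_le_iff _ _ hr]; simp

lemma NT_lt_iff (x : Fin d → ℝ) {r : ℝ} (hr : 0 < r) : NT x < r ↔ ∀ I, |f I x| < r := by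
  unfold NT; rw [nm_lt_iff _ _ hr]; simp

lemma le_NT (x : Fin d → ℝ) (I : J d) : |f I x| ≤ NT x := by
  have := le_nm (fun _ => 1) x I
  rw [one_mul] at this
  exact this

lemma NT_add_le (x y : Fin d → ℝ) : NT (x + y) ≤ NT x + NT y := nm_add_le _ x y
lemma NT_sub_le (x y : Fin d → ℝ) : NT (x - y) ≤ NT x + NT y := nm_sub_le _ x y
lemma NT_smul (c : ℝ) (x : Fin d → ℝ) : NT (c • x) = |c| * NT x := nm_smul _ c x
lemma NT_neg (x : Fin d → ℝ) : NT (-x) = NT x := nm_neg _ x
lemma NT_zero : NT (0 : Fin d → ℝ) = 0 := nm_zero _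
lemma NT_nonneg (x : Fin d → ℝ) : 0 ≤ NT x := nm_nonneg _ x
lemma NT_sub_comm (x y : Fin d → ℝ) : NT (x - y) = NT (y - x) := nm_sub_comm _ x y
lemma continuous_NT : Continuous (NT (d := d)) := continuous_nm _

/-- coordinates are controlled by the tile norm -/
lemma abs_le_NT (x : Fin d → ℝ) (i : Fin d) : |x i| ≤ 3 / 2 * NT x := by
  have hd : 0 < d := lt_of_le_of_lt (Nat.zero_le _) i.2
  have hd' : (1 : ℝ) ≤ d := by exact_mod_cast hd
  have hdpos : (0 : ℝ) < d := by linarith
  set I1 : J d := ⟨{i}, Finset.singleton_nonempty i⟩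
  set I2 : J d := ⟨Finset.univ, ⟨i, Finset.mem_univ i⟩⟩
  have h1 := le_NT x I1
  have h2 := le_NT x I2
  rw [abs_f_le_iff] at h1 h2
  have e1 : B x (ind I1.1) = 2 * d * x i - ∑ i, x i := by
    rw [B_ind]; simp [I1]
  have e2 : B x (ind I2.1) = d * ∑ i, x i := by
    rw [B_ind]; simp [I2]; ring
  have e3 : q I1.1 = 2 * d - 1 := by rw [q_eq]; simp [I1]
  have e4 : q I2.1 = d * d := by
    rw [q_eq]
    simp only [I2, Finset.card_univ, Fintype.card_fin]
    ring
  rw [e1, e3] at h1
  rw [e2, e4, abs_mul, abs_of_pos hdpos] at h2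
  have h3 : |∑ i, x i| ≤ d * NT x := by nlinarith
  have h4 : |2 * d * x i| ≤ |2 * d * x i - ∑ i, x i| + |∑ i, x i| := by
    have := abs_add_le (2 * d * x i - ∑ i, x i) (∑ i, x i)
    simpa using this
  rw [abs_mul, abs_of_pos (by positivity : (0 : ℝ) < 2 * d)] at h4
  have h5 := NT_nonneg x
  nlinarith

lemma norm_le_NT (x : Fin d → ℝ) : ‖x‖ ≤ 3 / 2 * NT x := by
  rw [pi_norm_le_iff_of_nonneg (by have := NT_nonneg x; positivity)]
  exact fun i => abs_le_NT x i

lemma NT_le_norm (x : Fin d → ℝ) : NT x ≤ 3 * ‖x‖ := by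
  rw [NT_le_iff _ (by positivity)]
  intro I
  rw [abs_f_le_iff, B_ind, q_eq]
  have hc : ∀ i, |x i| ≤ ‖x‖ := fun i => norm_le_pi_norm x i
  have h1 : |∑ i ∈ I.1, x i| ≤ I.1.card * ‖x‖ := by
    refine (Finset.abs_sum_le_sum_abs _ _).trans ?_
    refine (Finset.sum_le_sum fun i _ => hc i).trans ?_
    simp
  have h2 : |∑ i, x i| ≤ d * ‖x‖ := by
    refine (Finset.abs_sum_le_sum_abs _ _).trans ?_
    refine (Finset.sum_le_sum fun i _ => hc i).trans ?_
    simp
  have hk : (0 : ℝ) < I.1.card := by exact_mod_cast I.2.card_pos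
  have hkd := card_le_d I.1
  have hd : (0 : ℝ) < d := by linarith
  have h3 : |2 * d * ∑ i ∈ I.1, x i - (∑ i, x i) * I.1.card| ≤
      2 * d * (I.1.card * ‖x‖) + d * ‖x‖ * I.1.card := by
    refine (abs_sub _ _).trans ?_
    rw [abs_mul (2 * (d : ℝ)), abs_mul (∑ i, x i), abs_of_pos (by positivity : (0 : ℝ) < 2 * d),
      abs_of_pos hk]
    gcongr
  refine h3.trans ?_
  have h4 : 0 ≤ ‖x‖ * I.1.card := by positivity
  nlinarith

lemma eq_zero_of_NT_le_zero {x : Fin d → ℝ} (h : NT x ≤ 0) : x = 0 := by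
  have := norm_le_NT x
  have h2 : ‖x‖ ≤ 0 := by linarith
  exact norm_le_zero_iff.mp h2

/-- relative interior of a facet of the tile `{NT ≤ 1/2}` -/
def R (I : J d) : Set (Fin d → ℝ) := {x | f I x = 1 / 2 ∧ ∀ K, K ≠ I → |f K x| < 1 / 2}

lemma half_ind_mem_R (I : J d) : (1 / 2 : ℝ) • ind I.1 ∈ R I := by
  refine ⟨by rw [f_smul, f_self]; norm_num, fun K hK => ?_⟩
  rw [f_smul, abs_mul, abs_of_pos (by norm_num : (0 : ℝ) < 1 / 2)]
  have := abs_f_ind_lt (Ne.symm hK)
  linarith

lemma NT_le_of_mem_R {I : J d} {x : Fin d → ℝ} (hx : x ∈ R I) : NT x ≤ 1 / 2 := by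
  rw [NT_le_iff _ (by norm_num)]
  intro K
  by_cases h : K = I
  · rw [h, hx.1]; norm_num
  · exact (hx.2 K h).le

lemma NT_ind_le (I : J d) : NT (ind I.1) ≤ 1 := by
  rw [NT_le_iff _ (by norm_num)]
  intro K
  by_cases h : I = K
  · rw [← h, f_self]; norm_num
  · exact (abs_f_ind_lt h).le

lemma mid_mem_R {I : J d} {p g : Fin d → ℝ} (h1 : p ∈ R I) (h2 : g - p ∈ R I) :
    (1 / 2 : ℝ) • g ∈ R I := by
  have e : (1 / 2 : ℝ) • g = (1 / 2 : ℝ) • p + (1 / 2 : ℝ) • (g - p) := by
    rw [← smul_add]; congr 1; abel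
  refine ⟨?_, fun K hK => ?_⟩
  · rw [e, f_add, f_smul, f_smul, h1.1, h2.1]; norm_num
  · rw [e, f_add, f_smul, f_smul]
    have a1 := abs_lt.mp (h1.2 K hK)
    have a2 := abs_lt.mp (h2.2 K hK)
    rw [abs_lt]; constructor <;> linarith [a1.1, a1.2, a2.1, a2.2]

/-- finite union lemma -/
lemma exists_open_subset {X ι : Type*} [TopologicalSpace X] (Γ : Finset ι) (A : ι → Set X)
    (hA : ∀ i ∈ Γ, IsClosed (A i)) :
    ∀ U : Set X, IsOpen U → U.Nonempty → U ⊆ ⋃ i ∈ Γ, A i →
      ∃ i ∈ Γ, ∃ U' : Set X, IsOpen U' ∧ U'.Nonempty ∧ U' ⊆ U ∧ U' ⊆ A i := by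
  classical
  induction Γ using Finset.induction_on with
  | empty =>
    intro U _ hne hsub
    obtain ⟨x, hx⟩ := hne
    have := hsub hx
    simp at this
  | insert a Γ ha ih =>
    intro U hU hne hsub
    by_cases h : (U \ A a).Nonempty
    · have hop : IsOpen (U \ A a) := hU.sdiff (hA a (Finset.mem_insert_self a Γ))
      obtain ⟨i, hi, U', h1, h2, h3, h4⟩ := ih (fun i hi => hA i (Finset.mem_insert_of_mem hi))
        (U \ A a) hop h (by
          intro x hx
          have := hsub hx.1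
          simp only [Set.mem_iUnion] at this ⊢
          obtain ⟨i, hi, hxi⟩ := this
          rcases Finset.mem_insert.mp hi with rfl | hi
          · exact absurd hxi hx.2
          · exact ⟨i, hi, hxi⟩)
      exact ⟨i, Finset.mem_insert_of_mem hi, U', h1, h2, h3.trans Set.sdiff_subset, h4⟩
    · refine ⟨a, Finset.mem_insert_self a Γ, U, hU, hne, le_rfl, ?_⟩
      intro x hx
      by_contra hxa
      exact h ⟨x, hx, hxa⟩

section G

variable {G : Submodule ℤ (Fin d → ℝ)} (hP : ∀ g ∈ G, g ≠ 0 → 1 ≤ NT g)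
  (hC : ∀ x : Fin d → ℝ, ∃ g ∈ G, NT (x - g) ≤ 1 / 2)

include hP in
lemma discreteG : DiscreteTopology G := by
  refine discreteTopology_of_isOpen_singleton_zero ?_
  rw [Metric.isOpen_iff]
  intro x hx
  refine ⟨1 / 3, by norm_num, fun y hy => ?_⟩
  rw [Set.mem_singleton_iff] at hx
  subst hx
  rw [Set.mem_singleton_iff]
  by_contra hne
  have h1 := hP y.1 y.2 (fun e => hne (Subtype.ext e))
  have h2 : ‖(y : Fin d → ℝ)‖ < 1 / 3 := by
    have := Metric.mem_ball.mp hy
    rw [dist_eq_norm, sub_zero] at this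
    exact this
  have h3 := NT_le_norm y.1
  linarith

include hP in
lemma finiteG (r : ℝ) : Set.Finite {g : Fin d → ℝ | g ∈ G ∧ NT g ≤ r} := by
  have hdisc := discreteG hP
  have hdisc' : DiscreteTopology G.toAddSubgroup := hdisc
  have hclosed : IsClosed (G.toAddSubgroup : Set (Fin d → ℝ)) := AddSubgroup.isClosed_of_discrete
  have hb : Bornology.IsBounded (Metric.closedBall (0 : Fin d → ℝ) (3 / 2 * r)) :=
    Metric.isBounded_closedBall
  have hfin := Metric.finite_isBounded_inter_isClosed ⟨hdisc'⟩ hb hclosed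
  refine hfin.subset ?_
  rintro g ⟨hg, hr⟩
  refine ⟨?_, hg⟩
  rw [Metric.mem_closedBall, dist_zero_right]
  have := norm_le_NT g
  linarith

include hP hC in
lemma cover_R {I : J d} {x : Fin d → ℝ} (hx : x ∈ R I) :
    ∃ g ∈ G, g ≠ 0 ∧ NT g ≤ 2 ∧ NT (x - g) ≤ 1 / 2 := by
  by_contra hcon
  push Not at hcon
  have hfin := finiteG hP 2
  have hev : ∀ᶠ t : ℝ in 𝓝 0, ∀ g ∈ {g : Fin d → ℝ | g ∈ G ∧ NT g ≤ 2}, g ≠ 0 →
      1 / 2 < NT (x + t • ind I.1 - g) := by
    rw [Filter.eventually_all_finite hfin]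
    intro g hg
    by_cases hg0 : g = 0
    · exact Eventually.of_forall fun t h => absurd hg0 h
    · have h1 : 1 / 2 < NT (x - g) := hcon g hg.1 hg0 hg.2
      have hc : Continuous fun t : ℝ => NT (x + t • ind I.1 - g) :=
        continuous_NT.comp (by fun_prop)
      have h2 : Tendsto (fun t : ℝ => NT (x + t • ind I.1 - g)) (𝓝 0) (𝓝 (NT (x - g))) := by
        have := hc.tendsto 0
        simpa using this
      filter_upwards [h2.eventually (lt_mem_nhds h1)] with t ht _
      exact ht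
  have hev2 : ∀ᶠ t : ℝ in 𝓝[>] 0, t < 1 := by
    filter_upwards [Ioo_mem_nhdsGT (show (0 : ℝ) < 1 by norm_num)] with t ht
    exact ht.2
  obtain ⟨t, ⟨ht1, ht2⟩, ht3⟩ := (((hev.filter_mono nhdsWithin_le_nhds).and hev2).and
    self_mem_nhdsWithin).exists
  have ht0 : 0 < t := ht3
  obtain ⟨g, hg, hgt⟩ := hC (x + t • ind I.1)
  have hg0 : g ≠ 0 := by
    rintro rfl
    rw [sub_zero] at hgt
    have h1 := le_NT (x + t • ind I.1) I
    rw [f_add, f_smul, f_self, hx.1] at h1
    have := le_abs_self ((1 : ℝ) / 2 + t * 1)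
    linarith
  have hNg : NT g ≤ 2 := by
    have e : g = (x + t • ind I.1) - (x + t • ind I.1 - g) := by abel
    have h1 := NT_sub_le (x + t • ind I.1) (x + t • ind I.1 - g)
    rw [← e] at h1
    have h2 := NT_add_le x (t • ind I.1)
    rw [NT_smul, abs_of_pos ht0] at h2
    have h3 := NT_le_of_mem_R hx
    have h4 := NT_ind_le I
    have h5 := NT_nonneg (ind I.1)
    nlinarith
  exact absurd hgt (not_le.mpr (ht1 g ⟨hg, hNg⟩ hg0))

include hP hC in
/-- near every point of a facet there is a wall -/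
lemma wall_exists {I : J d} {x0 : Fin d → ℝ} (hx0 : x0 ∈ R I) {r : ℝ} (hr : 0 < r) :
    ∃ g ∈ G, ∃ p, NT (p - x0) < r ∧ p ∈ R I ∧ g - p ∈ R I := by
  classical
  set π : (Fin d → ℝ) → (Fin d → ℝ) := fun x => x + (1 / 2 - f I x) • ind I.1 with hπ
  have hπc : Continuous π := by
    have := continuous_f I
    fun_prop
  have hfπ : ∀ x, f I (π x) = 1 / 2 := by
    intro x; simp only [hπ]; rw [f_add, f_smul, f_self]; ring
  have hπ0 : π x0 = x0 := by simp only [hπ]; rw [hx0.1]; simp
  set U : Set (Fin d → ℝ) := {x | (∀ K, K ≠ I → |f K (π x)| < 1 / 2) ∧ NT (π x - x0) < r} with hU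
  have hUo : IsOpen U := by
    have h1 : U = (⋂ K : J d, {x | K ≠ I → |f K (π x)| < 1 / 2}) ∩ {x | NT (π x - x0) < r} := by
      ext x; simp [hU]
    rw [h1]
    refine IsOpen.inter (isOpen_iInter_of_finite fun K => ?_) ?_
    · by_cases hK : K = I
      · simp [hK]
      · simp only [ne_eq, hK, not_false_eq_true, forall_const]
        exact isOpen_lt ((continuous_f K).comp hπc).abs continuous_const
    · exact isOpen_lt (continuous_NT.comp (hπc.sub continuous_const)) continuous_const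
  have hUne : U.Nonempty := by
    refine ⟨x0, ?_, ?_⟩
    · intro K hK; rw [hπ0]; exact hx0.2 K hK
    · rw [hπ0, sub_self, NT_zero]; exact hr
  have hfin := finiteG hP 2
  set Γ : Finset (Fin d → ℝ) := hfin.toFinset.erase 0 with hΓ
  have hcov : U ⊆ ⋃ g ∈ Γ, {x | NT (π x - g) ≤ 1 / 2} := by
    intro x hx
    obtain ⟨g, h1, h2, h3, h4⟩ := cover_R hP hC (I := I) (x := π x) ⟨hfπ x, hx.1⟩
    simp only [Set.mem_iUnion]
    refine ⟨g, ?_, h4⟩
    rw [hΓ, Finset.mem_erase, Set.Finite.mem_toFinset]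
    exact ⟨h2, h1, h3⟩
  obtain ⟨g, hg, U', h1, ⟨p', hp'⟩, h3, h4⟩ := exists_open_subset Γ
    (fun g => {x | NT (π x - g) ≤ 1 / 2})
    (fun g _ => isClosed_le (continuous_NT.comp (hπc.sub continuous_const)) continuous_const)
    U hUo hUne hcov
  rw [hΓ, Finset.mem_erase, Set.Finite.mem_toFinset] at hg
  obtain ⟨hg0, hgG, hg2⟩ := hg
  set p := π p' with hp
  have hpR : p ∈ R I := ⟨hfπ p', (h3 hp').1⟩
  have hNp : NT (p - g) ≤ 1 / 2 := h4 hp'
  -- strictness for other facets
  have hstr : ∀ K, K ≠ I → |f K (p - g)| < 1 / 2 := by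
    intro K hK
    set v : Fin d → ℝ := ind K.1 - f I (ind K.1) • ind I.1 with hv
    have hfv : f I v = 0 := by rw [hv, f_sub, f_smul, f_self]; ring
    have hKv : 0 < f K v := by
      rw [hv, f_sub, f_smul, f_self]
      have a1 := abs_lt.mp (abs_f_ind_lt hK)
      have a2 := abs_lt.mp (abs_f_ind_lt (Ne.symm hK))
      nlinarith [a1.1, a1.2, a2.1, a2.2]
    have hcont : Tendsto (fun t : ℝ => p' + t • v) (𝓝 0) (𝓝 p') := by
      have : Continuous fun t : ℝ => p' + t • v := by fun_prop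
      have := this.tendsto 0
      simpa using this
    have hevU : ∀ᶠ t : ℝ in 𝓝 0, p' + t • v ∈ U' := hcont.eventually (h1.mem_nhds hp')
    have hπt : ∀ t : ℝ, π (p' + t • v) = p + t • v := by
      intro t
      simp only [hp, hπ]
      rw [f_add, f_smul, hfv, mul_zero, add_zero]
      abel
    have hb : ∀ᶠ t : ℝ in 𝓝 0, |f K (p - g) + t * f K v| ≤ 1 / 2 := by
      filter_upwards [hevU] with t ht
      have h5 : NT (π (p' + t • v) - g) ≤ 1 / 2 := h4 ht
      rw [hπt] at h5
      have h6 := (le_NT _ K).trans h5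
      have e : p + t • v - g = (p - g) + t • v := by abel
      rw [e, f_add, f_smul] at h6
      exact h6
    rw [Metric.eventually_nhds_iff] at hb
    obtain ⟨δ, hδ, hb⟩ := hb
    have b1 := abs_le.mp (hb (y := δ / 2) (by rw [dist_zero_right, Real.norm_eq_abs, abs_of_pos (by positivity)]; linarith))
    have b2 := abs_le.mp (hb (y := -(δ / 2)) (by
      rw [dist_zero_right, Real.norm_eq_abs, abs_neg, abs_of_pos (by positivity)]; linarith))
    have : 0 < δ / 2 * f K v := by positivity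
    rw [abs_lt]; constructor <;> linarith [b1.1, b1.2, b2.1, b2.2]
  -- equality for `I`
  have hIeq : f I (p - g) = -(1 / 2) := by
    have hle := abs_le.mp ((le_NT (p - g) I).trans hNp)
    by_contra hne
    have hgt : -(1 / 2) < f I (p - g) := lt_of_le_of_ne hle.1 (Ne.symm hne)
    -- move down a little
    have e1 : ∀ᶠ s : ℝ in 𝓝 0, ∀ K, K ≠ I → |f K (p - s • ind I.1)| < 1 / 2 := by
      rw [Filter.eventually_all]
      intro K
      by_cases hK : K = I
      · exact Eventually.of_forall fun s h => absurd hK h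
      · have hc : Continuous fun s : ℝ => |f K (p - s • ind I.1)| :=
          ((continuous_f K).comp (by fun_prop)).abs
        have h5 : Tendsto (fun s : ℝ => |f K (p - s • ind I.1)|) (𝓝 0) (𝓝 |f K p|) := by
          have := hc.tendsto 0
          simpa using this
        filter_upwards [h5.eventually (gt_mem_nhds (hpR.2 K hK))] with s hs _
        exact hs
    have e2 : ∀ᶠ s : ℝ in 𝓝 0, ∀ K, K ≠ I → |f K (p - s • ind I.1 - g)| < 1 / 2 := by
      rw [Filter.eventually_all]
      intro K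
      by_cases hK : K = I
      · exact Eventually.of_forall fun s h => absurd hK h
      · have hc : Continuous fun s : ℝ => |f K (p - s • ind I.1 - g)| :=
          ((continuous_f K).comp (by fun_prop)).abs
        have h5 : Tendsto (fun s : ℝ => |f K (p - s • ind I.1 - g)|) (𝓝 0) (𝓝 |f K (p - g)|) := by
          have := hc.tendsto 0
          simpa using this
        filter_upwards [h5.eventually (gt_mem_nhds (hstr K hK))] with s hs _
        exact hs
    have e3 : ∀ᶠ s : ℝ in 𝓝[>] 0, s < f I (p - g) + 1 / 2 ∧ s < 1 := by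
      have h6 : (0 : ℝ) < min (f I (p - g) + 1 / 2) 1 := by
        apply lt_min
        · linarith
        · norm_num
      filter_upwards [Ioo_mem_nhdsGT h6] with s hs
      exact ⟨hs.2.trans_le (min_le_left _ _), hs.2.trans_le (min_le_right _ _)⟩
    obtain ⟨s, ⟨⟨hs1, hs2⟩, hs3, hs4⟩, hs5⟩ := ((((e1.and e2).filter_mono nhdsWithin_le_nhds).and e3).and
      self_mem_nhdsWithin).exists
    have hs0 : 0 < s := hs5
    have n1 : NT (p - s • ind I.1) < 1 / 2 := by
      rw [NT_lt_iff _ (by norm_num)]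
      intro K
      by_cases hK : K = I
      · rw [hK, f_sub, f_smul, f_self, hpR.1, abs_lt]; constructor <;> linarith
      · exact hs1 K hK
    have n2 : NT (p - s • ind I.1 - g) < 1 / 2 := by
      rw [NT_lt_iff _ (by norm_num)]
      intro K
      by_cases hK : K = I
      · have e : p - s • ind I.1 - g = (p - g) - s • ind I.1 := by abel
        rw [hK, e, f_sub, f_smul, f_self, abs_lt]; constructor <;> linarith [hle.2]
      · exact hs2 K hK
    have e : g = (p - s • ind I.1) - (p - s • ind I.1 - g) := by abel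
    have n3 := NT_sub_le (p - s • ind I.1) (p - s • ind I.1 - g)
    rw [← e] at n3
    have := hP g hgG hg0
    linarith
  refine ⟨g, hgG, p, (h3 hp').2, hpR, ?_, ?_⟩
  · rw [← neg_sub, f_neg, hIeq]; norm_num
  · intro K hK
    rw [← neg_sub, f_neg, abs_neg]
    exact hstr K hK

include hP in
/-- parity argument -/
lemma class_unique {I : J d} {g g' k : Fin d → ℝ} (hk : k ∈ G) (hg : g ∈ G)
    (hgR : (1 / 2 : ℝ) • g ∈ R I) (hg' : NT g' ≤ 1) (he : g - g' = (2 : ℝ) • k) :
    k = 0 ∨ k = g := by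
  set x : Fin d → ℝ := (1 / 2 : ℝ) • g with hx
  have hgx : g = (2 : ℝ) • x := by rw [hx, smul_smul]; norm_num
  have hxk : x - k = (1 / 2 : ℝ) • g' := by
    have : g' = g - (2 : ℝ) • k := by rw [← he]; abel
    rw [this, hx, smul_sub, smul_smul]; norm_num
  have hNxk : NT (x - k) ≤ 1 / 2 := by
    rw [hxk, NT_smul, abs_of_pos (by norm_num)]; linarith
  have e1 : ∀ᶠ s : ℝ in 𝓝 0, ∀ K, K ≠ I → |f K (x + s • (k - x))| < 1 / 2 := by
    rw [Filter.eventually_all]
    intro K
    by_cases hK : K = I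
    · exact Eventually.of_forall fun s h => absurd hK h
    · have hc : Continuous fun s : ℝ => |f K (x + s • (k - x))| :=
        ((continuous_f K).comp (by fun_prop)).abs
      have h5 : Tendsto (fun s : ℝ => |f K (x + s • (k - x))|) (𝓝 0) (𝓝 |f K x|) := by
        have := hc.tendsto 0
        simpa using this
      filter_upwards [h5.eventually (gt_mem_nhds (hgR.2 K hK))] with s hs _
      exact hs
  have e2 : ∀ᶠ s : ℝ in 𝓝 0, ∀ K, K ≠ I → |f K (x + s • (k - x) - g)| < 1 / 2 := by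
    rw [Filter.eventually_all]
    intro K
    by_cases hK : K = I
    · exact Eventually.of_forall fun s h => absurd hK h
    · have hc : Continuous fun s : ℝ => |f K (x + s • (k - x) - g)| :=
        ((continuous_f K).comp (by fun_prop)).abs
      have h5 : Tendsto (fun s : ℝ => |f K (x + s • (k - x) - g)|) (𝓝 0) (𝓝 |f K (x - g)|) := by
        have := hc.tendsto 0
        simpa using this
      have h6 : |f K (x - g)| < 1 / 2 := by
        have : x - g = -x := by rw [hgx, two_smul]; abel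
        rw [this, f_neg, abs_neg]
        exact hgR.2 K hK
      filter_upwards [h5.eventually (gt_mem_nhds h6)] with s hs _
      exact hs
  have e3 : ∀ᶠ s : ℝ in 𝓝 0, 0 < f I (x + s • (k - x)) ∧ f I (x + s • (k - x)) < 1 := by
    have hc : Continuous fun s : ℝ => f I (x + s • (k - x)) :=
      (continuous_f I).comp (by fun_prop)
    have h5 : Tendsto (fun s : ℝ => f I (x + s • (k - x))) (𝓝 0) (𝓝 (1 / 2)) := by
      have := hc.tendsto 0
      simp only [zero_smul, add_zero] at this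
      rw [hgR.1] at this
      exact this
    exact (h5.eventually (lt_mem_nhds (by norm_num))).and
      (h5.eventually (gt_mem_nhds (by norm_num)))
  have e4 : ∀ᶠ s : ℝ in 𝓝[>] 0, s < 1 := by
    filter_upwards [Ioo_mem_nhdsGT (show (0 : ℝ) < 1 by norm_num)] with s hs
    exact hs.2
  obtain ⟨s, ⟨⟨⟨hs1, hs2⟩, hs3, hs4⟩, hs5⟩, hs6⟩ :=
    (((((e1.and e2).and e3).filter_mono nhdsWithin_le_nhds).and e4).and
      self_mem_nhdsWithin).exists
  have hs0 : 0 < s := hs6
  set y := x + s • (k - x) with hy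
  have hyk : NT (y - k) < 1 / 2 := by
    have : y - k = (1 - s) • (x - k) := by
      rw [hy, sub_smul, one_smul, smul_sub, smul_sub]; abel
    rw [this, NT_smul, abs_of_pos (by linarith)]
    have := NT_nonneg (x - k)
    nlinarith
  rcases le_or_gt (f I y) (1 / 2) with h | h
  · left
    by_contra hk0
    have hNy : NT y ≤ 1 / 2 := by
      rw [NT_le_iff _ (by norm_num)]
      intro K
      by_cases hK : K = I
      · rw [hK, abs_le]; constructor <;> linarith
      · exact (hs1 K hK).le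
    have e : k = y - (y - k) := by abel
    have h1 := NT_sub_le y (y - k)
    rw [← e] at h1
    have := hP k hk hk0
    linarith
  · right
    by_contra hkg
    have hNy : NT (y - g) ≤ 1 / 2 := by
      rw [NT_le_iff _ (by norm_num)]
      intro K
      by_cases hK : K = I
      · have hfg : f I g = 1 := by rw [hgx, f_smul, hgR.1]; norm_num
        rw [hK, f_sub, hfg, abs_le]; constructor <;> linarith
      · exact (hs2 K hK).le
    have e : k - g = (y - g) - (y - k) := by abel
    have h1 := NT_sub_le (y - g) (y - k)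
    rw [← e] at h1
    have := hP (k - g) (G.sub_mem hk hg) (sub_ne_zero.mpr hkg)
    linarith

end G

end Pool.Agent.Helper37.Lat
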