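import Pool.Agent.Helper37.Lat.L2

set_option autoImplicit false

/-! Uniqueness of the tiling lattice. -/

namespace Pool.Agent.Helper37.Lat

open Finset Filter Topology Module

variable {d : ℕ}

section G

variable {G : Submodule ℤ (Fin d → ℝ)} (hP : ∀ g ∈ G, g ≠ 0 → 1 ≤ NT g)
  (hC : ∀ x : Fin d → ℝ, ∃ g ∈ G, NT (x - g) ≤ 1 / 2)

include hP in
/-- parity classes -/
lemma exists_class : ∃ (n : ℕ) (c : (Fin d → ℝ) → (Fin n → ZMod 2)), n ≤ d ∧
    c 0 = 0 ∧ ∀ g ∈ G, ∀ g' ∈ G, c g = c g' → ∃ k ∈ G, g - g' = (2 : ℝ) • k := by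
  classical
  have hdisc : DiscreteTopology G := discreteG hP
  set b := Free.chooseBasis ℤ G with hb
  set n := Fintype.card (Free.ChooseBasisIndex ℤ G) with hn
  have hnd : n ≤ d := by
    have h1 : DiscreteTopology (Submodule.span ℤ (G : Set (Fin d → ℝ))) := by
      rw [Submodule.span_eq]; exact hdisc
    have h2 := Real.finrank_eq_int_finrank_of_discrete h1
    have h3 : Set.finrank ℤ (G : Set (Fin d → ℝ)) = n := by
      unfold Set.finrank
      rw [Submodule.span_eq, finrank_eq_card_chooseBasisIndex]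
    have h4 : Set.finrank ℝ (G : Set (Fin d → ℝ)) ≤ d := by
      unfold Set.finrank
      refine (Submodule.finrank_le _).trans ?_
      simp
    omega
  set e := Fintype.equivFin (Free.ChooseBasisIndex ℤ G) with he
  refine ⟨n, fun g => if hg : g ∈ G then fun i => ((b.repr ⟨g, hg⟩ (e.symm i) : ℤ) : ZMod 2) else 0,
    hnd, ?_, ?_⟩
  · beta_reduce
    rw [dif_pos G.zero_mem]
    funext i
    have : (⟨0, G.zero_mem⟩ : G) = 0 := rfl
    rw [this, map_zero]; simp
  · intro g hg g' hg' hcc
    beta_reduce at hcc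
    rw [dif_pos hg, dif_pos hg'] at hcc
    have h1 : ∀ j, (2 : ℤ) ∣ b.repr ⟨g, hg⟩ j - b.repr ⟨g', hg'⟩ j := by
      intro j
      have := congrFun hcc (e j)
      simp only [Equiv.symm_apply_apply] at this
      rw [← sub_eq_zero, ← Int.cast_sub] at this
      exact (ZMod.intCast_zmod_eq_zero_iff_dvd _ 2).mp this
    choose m hm using h1
    refine ⟨(∑ j, m j • b j : G), (∑ j, m j • b j : G).2, ?_⟩
    have h2 : (⟨g, hg⟩ - ⟨g', hg'⟩ : G) = (2 : ℤ) • (∑ j, m j • b j) := by
      apply b.repr.injective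
      ext j
      rw [map_sub, Finsupp.sub_apply, hm j, map_smul, map_sum]
      simp only [map_smul, Basis.repr_self, Finsupp.smul_apply, Finsupp.finsetSum_apply,
        Finsupp.single_apply, smul_eq_mul, mul_ite, mul_one, mul_zero]
      simp
    have h3 := congrArg (Subtype.val) h2
    have h4 : g - g' = (2 : ℤ) • ((∑ j, m j • b j : G) : Fin d → ℝ) := h3
    rw [h4]
    funext i
    simp only [Pi.smul_apply, zsmul_eq_mul, smul_eq_mul]
    norm_num

lemma card_J : Fintype.card (J d) = 2 ^ d - 1 := by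
  classical
  rw [Fintype.card_subtype]
  have h1 : (Finset.univ.filter (fun I : Finset (Fin d) => I.Nonempty)) =
      Finset.univ.erase ∅ := by
    ext I
    simp [Finset.nonempty_iff_ne_empty]
  rw [h1, Finset.card_erase_of_mem (Finset.mem_univ _), Finset.card_univ, Fintype.card_finset,
    Fintype.card_fin]

include hP hC in
theorem tiling_unique (I : J d) : ind I.1 ∈ G := by
  classical
  -- choose walls
  have hw : ∀ K : J d, ∃ g ∈ G, (1 / 2 : ℝ) • g ∈ R K := by
    intro K
    obtain ⟨g, hg, p, _, hp, hgp⟩ := wall_exists hP hC (half_ind_mem_R K) (r := 1) (by norm_num)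
    exact ⟨g, hg, mid_mem_R hp hgp⟩
  choose gg hgG hgR using hw
  obtain ⟨n, c, hnd, hc0, hc⟩ := exists_class hP
  -- facts on walls
  have fone : ∀ {K : J d} {g : Fin d → ℝ}, (1 / 2 : ℝ) • g ∈ R K → f K g = 1 := by
    intro K g h
    have := h.1
    rw [f_smul] at this
    linarith
  have flt : ∀ {K L : J d} {g : Fin d → ℝ}, (1 / 2 : ℝ) • g ∈ R K → L ≠ K → |f L g| < 1 := by
    intro K L g h hL
    have := h.2 L hL
    rw [f_smul, abs_mul, abs_of_pos (by norm_num : (0 : ℝ) < 1 / 2)] at this
    linarith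
  have fNT : ∀ {K : J d} {g : Fin d → ℝ}, (1 / 2 : ℝ) • g ∈ R K → NT g ≤ 1 := by
    intro K g h
    have := NT_le_of_mem_R h
    rw [NT_smul, abs_of_pos (by norm_num : (0 : ℝ) < 1 / 2)] at this
    linarith
  -- two walls in the same class are equal up to sign
  have hclass : ∀ {K : J d} {g g' : Fin d → ℝ}, g ∈ G → g' ∈ G → (1 / 2 : ℝ) • g ∈ R K →
      NT g' ≤ 1 → c g = c g' → g' = g ∨ g' = -g := by
    intro K g g' hg hg' hgR hN hcc
    obtain ⟨k, hk, he⟩ := hc g hg g' hg' hcc
    rcases class_unique hP hk hg hgR hN he with h | h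
    · left
      rw [h, smul_zero, sub_eq_zero] at he
      exact he.symm
    · right
      rw [h, two_smul] at he
      have : g' = g - (g + g) := by rw [← he]; abel
      rw [this]; abel
  have hcne : ∀ {K : J d} {g : Fin d → ℝ}, g ∈ G → (1 / 2 : ℝ) • g ∈ R K → c g ≠ 0 := by
    intro K g hg hgR h0
    rw [← hc0] at h0
    have h1 := fone hgR
    rcases hclass hg G.zero_mem hgR (by rw [NT_zero]; norm_num) h0 with h | h
    · rw [← h, f_zero] at h1; norm_num at h1
    · have : g = 0 := by rw [← neg_neg g, ← h]; simp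
      rw [this, f_zero] at h1; norm_num at h1
  set Φ : J d → {v : Fin n → ZMod 2 // v ≠ 0} := fun K => ⟨c (gg K), hcne (hgG K) (hgR K)⟩ with hΦ
  have hΦinj : Function.Injective Φ := by
    intro K L h
    have h1 : c (gg K) = c (gg L) := congrArg Subtype.val h
    by_contra hKL
    have h2 := flt (hgR K) (Ne.symm hKL)
    have h3 := fone (hgR L)
    rcases hclass (hgG K) (hgG L) (hgR K) (fNT (hgR L)) h1 with h | h
    · rw [← h, h3] at h2; norm_num at h2
    · have : gg K = - gg L := by rw [h, neg_neg]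
      rw [this, f_neg, h3] at h2; norm_num at h2
  have hcard : Fintype.card {v : Fin n → ZMod 2 // v ≠ 0} = 2 ^ n - 1 := by
    rw [Fintype.card_subtype_compl, Fintype.card_fun, ZMod.card, Fintype.card_fin]
    simp
  have hsurj : Function.Surjective Φ := by
    have h1 := Fintype.card_le_of_injective Φ hΦinj
    have h2 : Fintype.card (J d) = Fintype.card {v : Fin n → ZMod 2 // v ≠ 0} := by
      refine le_antisymm h1 ?_
      rw [hcard, card_J]
      exact Nat.sub_le_sub_right (Nat.pow_le_pow_right (by norm_num) hnd) 1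
    exact ((Fintype.bijective_iff_injective_and_card Φ).mpr ⟨hΦinj, h2⟩).2
  -- uniqueness of the wall
  have huniq : ∀ {K : J d} {g : Fin d → ℝ}, g ∈ G → (1 / 2 : ℝ) • g ∈ R K → g = gg K := by
    intro K g hg hgR'
    obtain ⟨L, hL⟩ := hsurj ⟨c g, hcne hg hgR'⟩
    have h1 : c (gg L) = c g := congrArg Subtype.val hL
    have h3 := fone (hgR L)
    have hLK : L = K := by
      by_contra hLK
      have h2 := flt hgR' hLK
      rcases hclass hg (hgG L) hgR' (fNT (hgR L)) h1.symm with h | h
      · rw [← h, h3] at h2; norm_num at h2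
      · have : g = - gg L := by rw [h, neg_neg]
        rw [this, f_neg, h3] at h2; norm_num at h2
    subst hLK
    rcases hclass hg (hgG L) hgR' (fNT (hgR L)) h1.symm with h | h
    · exact h.symm
    · exfalso
      have h4 := fone hgR'
      rw [h, f_neg, h4] at h3; norm_num at h3
  -- the facet is covered by the unique wall
  set g := gg I with hg
  have hcov : ∀ x ∈ R I, NT (x - g) ≤ 1 / 2 := by
    intro x hx
    refine le_of_forall_pos_lt_add fun r hr => ?_
    obtain ⟨g', hg', p, hpx, hpR, hgp⟩ := wall_exists hP hC hx hr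
    have h1 : g' = g := huniq hg' (mid_mem_R hpR hgp)
    rw [h1] at hgp
    have h2 := NT_le_of_mem_R hgp
    have h3 : x - g = (x - p) - (g - p) := by abel
    have h4 := NT_sub_le (x - p) (g - p)
    rw [← h3] at h4
    have h5 := NT_sub_comm x p
    linarith
  have hfg : f I g = 1 := fone (hgR I)
  have hcov2 : ∀ x, NT x ≤ 1 / 2 → f I x = 1 / 2 → NT (x - g) ≤ 1 / 2 := by
    intro x hx hfx
    have h1 : ∀ s : ℝ, 0 ≤ s → s < 1 →
        NT ((s • x + (1 - s) • ((1 / 2 : ℝ) • ind I.1)) - g) ≤ 1 / 2 := by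
      intro s hs0 hs1
      apply hcov
      have hh := half_ind_mem_R I
      constructor
      · rw [f_add, f_smul, f_smul, hfx, hh.1]; ring
      · intro K hK
        rw [f_add, f_smul, f_smul]
        have a1 := abs_le.mp ((le_NT x K).trans hx)
        have a2 := abs_lt.mp (hh.2 K hK)
        have h1s : 0 < 1 - s := by linarith
        rw [abs_lt]; constructor
        · nlinarith [a1.1, a2.1]
        · nlinarith [a1.2, a2.2]
    have hc : Continuous fun s : ℝ => NT ((s • x + (1 - s) • ((1 / 2 : ℝ) • ind I.1)) - g) :=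
      continuous_NT.comp (by fun_prop)
    have h2 : Tendsto (fun s : ℝ => NT ((s • x + (1 - s) • ((1 / 2 : ℝ) • ind I.1)) - g))
        (𝓝[<] 1) (𝓝 (NT (x - g))) := by
      have := (hc.tendsto 1).mono_left (nhdsWithin_le_nhds (s := Set.Iio 1))
      simpa using this
    refine le_of_tendsto h2 ?_
    filter_upwards [Ioo_mem_nhdsLT (show (0 : ℝ) < 1 by norm_num)] with s hs
    exact h1 s hs.1.le hs.2
  -- iterate the translation
  set w := g - ind I.1 with hw
  have hstep : ∀ x, NT x ≤ 1 / 2 → f I x = 1 / 2 → NT (x + w) ≤ 1 / 2 ∧ f I (x + w) = 1 / 2 := by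
    intro x hx hfx
    have hsym : NT (ind I.1 - x) ≤ 1 / 2 := by
      rw [NT_sub_comm, NT_le_iff _ (by norm_num)]
      intro K
      rw [abs_f_le_iff]
      have h1 : ∀ K : Finset (Fin d), |B x (ind K)| ≤ q K / 2 := by
        intro K
        rcases K.eq_empty_or_nonempty with h | h
        · subst h; rw [B_ind, q_eq]; simp
        · have := (le_NT x ⟨K, h⟩).trans hx
          rw [abs_f_le_iff] at this
          simp only at this
          linarith
      have h2 : B x (ind I.1) = q I.1 / 2 := by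
        have h3 : f I x = B x (ind I.1) / q I.1 := rfl
        rw [hfx] at h3
        have := q_pos I.2
        field_simp at h3
        linarith
      have := facet_symm h1 h2 K.1
      linarith
    have hfs : f I (ind I.1 - x) = 1 / 2 := by rw [f_sub, f_self, hfx]; norm_num
    have h1 := hcov2 _ hsym hfs
    have e : x + w = -(ind I.1 - x - g) := by rw [hw]; abel
    refine ⟨?_, ?_⟩
    · rw [e, NT_neg]; exact h1
    · rw [f_add, hfx, hw, f_sub, hfg, f_self]; norm_num
  have hiter : ∀ m : ℕ, NT ((1 / 2 : ℝ) • ind I.1 + (m : ℝ) • w) ≤ 1 / 2 ∧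
      f I ((1 / 2 : ℝ) • ind I.1 + (m : ℝ) • w) = 1 / 2 := by
    intro m
    induction m with
    | zero =>
      rw [Nat.cast_zero, zero_smul, add_zero]
      exact ⟨NT_le_of_mem_R (half_ind_mem_R I), (half_ind_mem_R I).1⟩
    | succ m ih =>
      have := hstep _ ih.1 ih.2
      have e : (1 / 2 : ℝ) • ind I.1 + ((m + 1 : ℕ) : ℝ) • w =
          (1 / 2 : ℝ) • ind I.1 + (m : ℝ) • w + w := by
        push_cast
        rw [add_smul, one_smul]; abel
      rw [e]; exact this
  have hw0 : w = 0 := by
    apply eq_zero_of_NT_le_zero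
    by_contra hne
    push Not at hne
    obtain ⟨m, hm⟩ := exists_nat_gt (1 / NT w)
    have h1 := (hiter m).1
    have h2 : NT ((m : ℝ) • w) ≤ 1 := by
      have e : (m : ℝ) • w = ((1 / 2 : ℝ) • ind I.1 + (m : ℝ) • w) - (1 / 2 : ℝ) • ind I.1 := by
        abel
      have h3 := NT_sub_le ((1 / 2 : ℝ) • ind I.1 + (m : ℝ) • w) ((1 / 2 : ℝ) • ind I.1)
      rw [← e] at h3
      have := NT_le_of_mem_R (half_ind_mem_R I)
      linarith
    rw [NT_smul, abs_of_nonneg (Nat.cast_nonneg m)] at h2
    rw [div_lt_iff₀ hne] at hm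
    linarith
  have : ind I.1 = g := by rw [hw, sub_eq_zero] at hw0; exact hw0.symm
  rw [this]
  exact hgG I

end G

end Pool.Agent.Helper37.Lat
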