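import Pool.Agent.Helper37.Lat.L3

set_option autoImplicit false

/-! Volume arguments. -/

namespace Pool.Agent.Helper37.Lat

open Finset Filter Topology Module MeasureTheory
open scoped ENNReal Matrix Pointwise

variable {d : ℕ}

/-- the standard lattice -/
abbrev ZL (d : ℕ) : Submodule ℤ (Fin d → ℝ) :=
  Submodule.span ℤ (Set.range (Pi.basisFun ℝ (Fin d)))

lemma mem_ZL (x : Fin d → ℝ) : x ∈ ZL d ↔ ∃ z : Fin d → ℤ, x = zr z := by
  rw [Submodule.mem_span_range_iff_exists_fun]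
  constructor
  · rintro ⟨c, hc⟩
    refine ⟨c, ?_⟩
    rw [← hc]
    funext i
    simp [zr, Pi.single_apply]
  · rintro ⟨z, rfl⟩
    refine ⟨z, ?_⟩
    funext i
    simp [zr, Pi.single_apply]

instance countable_ZL : Countable (ZL d).toAddSubgroup := by
  have h : Function.Surjective
      (fun z : Fin d → ℤ => (⟨zr z, (mem_ZL _).mpr ⟨z, rfl⟩⟩ : (ZL d).toAddSubgroup)) := by
    rintro ⟨x, hx⟩
    obtain ⟨z, hz⟩ := (mem_ZL x).mp hx
    exact ⟨z, Subtype.ext hz.symm⟩
  exact h.countable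

lemma fund_ZL : IsAddFundamentalDomain (ZL d).toAddSubgroup
    (ZSpan.fundamentalDomain (Pi.basisFun ℝ (Fin d))) (volume : Measure (Fin d → ℝ)) :=
  ZSpan.isAddFundamentalDomain' (Pi.basisFun ℝ (Fin d)) volume

lemma vol_fund_ZL :
    (volume : Measure (Fin d → ℝ)) (ZSpan.fundamentalDomain (Pi.basisFun ℝ (Fin d))) = 1 := by
  rw [ZSpan.fundamentalDomain_pi_basisFun, volume_pi, Measure.pi_pi]
  simp

/-- Blichfeldt for the standard lattice -/
lemma blich {S : Set (Fin d → ℝ)} (hS : MeasurableSet S) (h : 1 < volume S) :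
    ∃ z : Fin d → ℤ, z ≠ 0 ∧ ∃ a ∈ S, ∃ b ∈ S, a - b = zr z := by
  have h1 : volume (ZSpan.fundamentalDomain (Pi.basisFun ℝ (Fin d))) < volume S := by
    rw [vol_fund_ZL]; exact h
  obtain ⟨x, y, hxy, hnd⟩ := exists_pair_mem_lattice_not_disjoint_vadd (fund_ZL (d := d))
    hS.nullMeasurableSet h1
  obtain ⟨p, hp1, hp2⟩ := Set.not_disjoint_iff.mp hnd
  obtain ⟨a, ha, rfl⟩ := hp1
  obtain ⟨b, hb, hab⟩ := hp2
  obtain ⟨zx, hzx⟩ := (mem_ZL x.1).mp x.2
  obtain ⟨zy, hzy⟩ := (mem_ZL y.1).mp y.2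
  simp only at hab
  rw [AddSubgroup.vadd_def, AddSubgroup.vadd_def, vadd_eq_add, vadd_eq_add, hzx, hzy] at hab
  refine ⟨zy - zx, ?_, a, ha, b, hb, ?_⟩
  · intro h0
    apply hxy
    apply Subtype.ext
    rw [hzx, hzy, sub_eq_zero.mp h0]
  · rw [zr_sub, sub_eq_sub_iff_add_eq_add, add_comm a, ← hab, add_comm (zr zy)]

/-- closed tile of radius `r` -/
def Cr (d : ℕ) (r : ℝ) : Set (Fin d → ℝ) := {x | NT x ≤ r}

lemma meas_Cr (r : ℝ) : MeasurableSet (Cr d r) :=
  (isClosed_le continuous_NT continuous_const).measurableSet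

lemma one_le_vol_C : 1 ≤ volume (Cr d (1 / 2)) := by
  have h1 := (fund_ZL (d := d)).measure_eq_tsum (Cr d (1 / 2))
  rw [h1, ← vol_fund_ZL (d := d)]
  refine le_trans (measure_mono ?_) (measure_iUnion_le _)
  intro x hx
  obtain ⟨z, hz⟩ := exists_int_close x
  rw [Set.mem_iUnion]
  refine ⟨⟨zr z, (mem_ZL _).mpr ⟨z, rfl⟩⟩, ?_, hx⟩
  refine ⟨x - zr z, ?_, ?_⟩
  · change NT (x - zr z) ≤ 1 / 2
    rw [NT_le_iff _ (by norm_num)]
    intro I
    rw [abs_f_le_iff]
    have := hz I.1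
    linarith
  · change (⟨zr z, _⟩ : (ZL d).toAddSubgroup) +ᵥ (x - zr z) = x
    rw [AddSubgroup.vadd_def, vadd_eq_add]
    abel

lemma Cr_smul {r : ℝ} (hr : 0 < r) : Cr d r = (2 * r) • Cr d (1 / 2) := by
  ext x
  rw [Set.mem_smul_set_iff_inv_smul_mem₀ (by positivity)]
  simp only [Cr, Set.mem_ofPred_eq]
  rw [NT_smul, abs_of_pos (by positivity), inv_mul_le_iff₀ (by positivity)]
  constructor <;> intro h <;> linarith

lemma vol_Cr {r : ℝ} (hr : 0 < r) : ENNReal.ofReal ((2 * r) ^ d) ≤ volume (Cr d r) := by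
  rw [Cr_smul hr, Measure.addHaar_smul, finrank_fintype_fun_eq_card, Fintype.card_fin,
    abs_of_pos (by positivity)]
  calc ENNReal.ofReal ((2 * r) ^ d) = ENNReal.ofReal ((2 * r) ^ d) * 1 := (mul_one _).symm
    _ ≤ _ := by gcongr; exact one_le_vol_C

/-- Blichfeldt for a general lattice -/
lemma blichV {V : Matrix (Fin d) (Fin d) ℝ} (hV : V.det ≠ 0) {S : Set (Fin d → ℝ)}
    (hS : MeasurableSet S) (h : ENNReal.ofReal |V.det| < volume S) :
    ∃ z : Fin d → ℤ, z ≠ 0 ∧ ∃ a ∈ S, ∃ b ∈ S, a - b = V *ᵥ zr z := by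
  have hdet : LinearMap.det (Matrix.toLin' V) = V.det := LinearMap.det_toLin' V
  have hcont : Continuous (Matrix.toLin' V) := LinearMap.continuous_of_finiteDimensional _
  have h1 : 1 < volume ((Matrix.toLin' V) ⁻¹' S) := by
    rw [Measure.addHaar_preimage_linearMap volume (by rw [hdet]; exact hV), hdet, abs_inv,
      ENNReal.ofReal_inv_of_pos (abs_pos.mpr hV)]
    have hpos : ENNReal.ofReal |V.det| ≠ 0 := by
      simp [hV]
    have hfin : ENNReal.ofReal |V.det| ≠ ⊤ := ENNReal.ofReal_ne_top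
    calc (1 : ℝ≥0∞) = (ENNReal.ofReal |V.det|)⁻¹ * ENNReal.ofReal |V.det| :=
          (ENNReal.inv_mul_cancel hpos hfin).symm
      _ < _ := by
          rw [ENNReal.mul_lt_mul_iff_right (ENNReal.inv_ne_zero.mpr hfin)
            (ENNReal.inv_ne_top.mpr hpos)]
          exact h
  obtain ⟨z, hz, a, ha, b, hb, hab⟩ := blich (hcont.measurable hS) h1
  refine ⟨z, hz, Matrix.toLin' V a, ha, Matrix.toLin' V b, hb, ?_⟩
  rw [← map_sub, hab, Matrix.toLin'_apply]

/-- admissible matrices -/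
def Adm (V : Matrix (Fin d) (Fin d) ℝ) (r : ℝ) : Prop := ∀ z : Fin d → ℤ, z ≠ 0 → r ≤ NT (V *ᵥ zr z)

lemma det_ge {V : Matrix (Fin d) (Fin d) ℝ} (hV : V.det ≠ 0) {r s : ℝ} (hA : Adm V r)
    (hs : 0 < s) (hsr : s < r) : s ^ d ≤ |V.det| := by
  by_contra hlt
  push Not at hlt
  have h1 : ENNReal.ofReal |V.det| < volume (Cr d (s / 2)) := by
    refine lt_of_lt_of_le ?_ (vol_Cr (by positivity : 0 < s / 2))
    have : 2 * (s / 2) = s := by ring
    rw [this, ENNReal.ofReal_lt_ofReal_iff (by positivity)]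
    exact hlt
  obtain ⟨z, hz, a, ha, b, hb, hab⟩ := blichV hV (meas_Cr _) h1
  have h2 := hA z hz
  rw [← hab] at h2
  have h3 := NT_sub_le a b
  have h4 : NT a ≤ s / 2 := ha
  have h5 : NT b ≤ s / 2 := hb
  linarith

/-- covering property of dense packings -/
lemma cover_of_dense {V : Matrix (Fin d) (Fin d) ℝ} (hV : V.det ≠ 0) {r s t : ℝ} (hA : Adm V r)
    (hs : 0 < s) (hsr : s < r) (ht : 0 < t) (htr : t < r) (hdet : |V.det| < s ^ d + t ^ d)
    (x : Fin d → ℝ) : ∃ z : Fin d → ℤ, NT (x - V *ᵥ zr z) ≤ (s + t) / 2 := by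
  by_contra hcon
  push Not at hcon
  set S : Set (Fin d → ℝ) := Cr d (s / 2) ∪ (fun y => y - x) ⁻¹' (Cr d (t / 2)) with hS
  have hm2 : MeasurableSet ((fun y : Fin d → ℝ => y - x) ⁻¹' (Cr d (t / 2))) :=
    (measurable_id.sub_const x) (meas_Cr _)
  have hSm : MeasurableSet S := (meas_Cr _).union hm2
  have hdisj : Disjoint (Cr d (s / 2)) ((fun y => y - x) ⁻¹' (Cr d (t / 2))) := by
    rw [Set.disjoint_left]
    intro y h1 h2
    have h1' : NT y ≤ s / 2 := h1
    have h2' : NT (y - x) ≤ t / 2 := h2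
    have h3 := hcon 0
    have h4 : V *ᵥ zr (0 : Fin d → ℤ) = 0 := by
      have : zr (0 : Fin d → ℤ) = 0 := by funext i; simp [zr]
      rw [this, Matrix.mulVec_zero]
    rw [h4, sub_zero] at h3
    have e : x = y - (y - x) := by abel
    have h5 := NT_sub_le y (y - x)
    rw [← e] at h5
    linarith
  have hvol : ENNReal.ofReal |V.det| < volume S := by
    rw [hS, measure_union hdisj hm2]
    have h1 : volume ((fun y : Fin d → ℝ => y - x) ⁻¹' (Cr d (t / 2))) =
        volume (Cr d (t / 2)) := by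
      simp only [sub_eq_add_neg]
      exact measure_preimage_add_right volume (-x) _
    rw [h1]
    refine lt_of_lt_of_le ?_ (add_le_add (vol_Cr (by positivity : 0 < s / 2))
      (vol_Cr (by positivity : 0 < t / 2)))
    have e1 : 2 * (s / 2) = s := by ring
    have e2 : 2 * (t / 2) = t := by ring
    rw [e1, e2, ← ENNReal.ofReal_add (by positivity) (by positivity),
      ENNReal.ofReal_lt_ofReal_iff (by positivity)]
    exact hdet
  obtain ⟨z, hz, a, ha, b, hb, hab⟩ := blichV hV hSm hvol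
  have h2 := hA z hz
  rw [← hab] at h2
  rcases ha with ha | ha <;> rcases hb with hb | hb
  · have ha' : NT a ≤ s / 2 := ha
    have hb' : NT b ≤ s / 2 := hb
    have := NT_sub_le a b
    linarith
  · -- a small, b near x : x - (-z)
    have ha' : NT a ≤ s / 2 := ha
    have hb' : NT (b - x) ≤ t / 2 := hb
    have h3 := hcon (-z)
    rw [zr_neg, Matrix.mulVec_neg, ← hab] at h3
    have e : x - -(a - b) = a - (b - x) := by abel
    rw [e] at h3
    have := NT_sub_le a (b - x)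
    linarith
  · have ha' : NT (a - x) ≤ t / 2 := ha
    have hb' : NT b ≤ s / 2 := hb
    have h3 := hcon z
    rw [← hab] at h3
    have e : x - (a - b) = b - (a - x) := by abel
    rw [e] at h3
    have := NT_sub_le b (a - x)
    linarith
  · have ha' : NT (a - x) ≤ t / 2 := ha
    have hb' : NT (b - x) ≤ t / 2 := hb
    have e : a - b = (a - x) - (b - x) := by abel
    have := NT_sub_le (a - x) (b - x)
    rw [← e] at this
    linarith

end Pool.Agent.Helper37.Lat
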