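import Pool.Agent.Helper37.Lat.L4

set_option autoImplicit false

/-! Stability of the tiling lattice. -/

namespace Pool.Agent.Helper37.Lat

open Finset Filter Topology Module MeasureTheory
open scoped ENNReal Matrix Pointwise

variable {d : ℕ}

lemma zr_zero : zr (0 : Fin d → ℤ) = 0 := by funext i; simp [zr]

lemma zr_zsmul (c : ℤ) (z : Fin d → ℤ) : zr (c • z) = (c : ℝ) • zr z := by
  funext i; simp [zr]

/-- limit lattice along an ultrafilter -/
def limG (ω : Ultrafilter ℕ) (V : ℕ → Matrix (Fin d) (Fin d) ℝ) : Submodule ℤ (Fin d → ℝ) where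
  carrier := {x | ∃ u : ℕ → (Fin d → ℤ), Tendsto (fun n => V n *ᵥ zr (u n)) ω (𝓝 x)}
  add_mem' := by
    rintro x y ⟨u, hu⟩ ⟨v, hv⟩
    refine ⟨fun n => u n + v n, ?_⟩
    simp only [zr_add, Matrix.mulVec_add]
    exact hu.add hv
  zero_mem' := by
    refine ⟨fun _ => 0, ?_⟩
    simp only [zr_zero, Matrix.mulVec_zero]
    exact tendsto_const_nhds
  smul_mem' := by
    rintro c x ⟨u, hu⟩
    refine ⟨fun n => c • u n, ?_⟩
    have e : ∀ n, V n *ᵥ zr (c • u n) = (c : ℝ) • (V n *ᵥ zr (u n)) := by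
      intro n; rw [zr_zsmul, Matrix.mulVec_smul]
    simp only [e]
    have h2 : c • x = (c : ℝ) • x := by funext i; simp
    rw [h2]
    exact hu.const_smul (c : ℝ)

theorem stability (hd : 0 < d) {η : ℝ} (hη : 0 < η) :
    ∃ ε : ℝ, 0 < ε ∧ ∀ V : Matrix (Fin d) (Fin d) ℝ, V.det ≠ 0 → Adm V (1 - ε) →
      |V.det| ≤ 1 + ε → ∃ A : Matrix (Fin d) (Fin d) ℤ, |A.det| = 1 ∧
        ∀ i j, |(V * A.map (Int.cast : ℤ → ℝ)) i j - (1 : Matrix (Fin d) (Fin d) ℝ) i j| < η := by
  by_contra hcon
  push Not at hcon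
  set κ : ℕ → ℝ := fun n => 1 / ((n : ℝ) + 4) with hκ
  set ε : ℕ → ℝ := fun n => κ n ^ d / (2 * d + 2) with hε
  have hκpos : ∀ n, 0 < κ n := fun n => by simp only [hκ]; positivity
  have hεpos : ∀ n, 0 < ε n := fun n => by have := hκpos n; simp only [hε]; positivity
  have hκ1 : ∀ n, κ n ≤ 1 / 4 := fun n => by
    simp only [hκ]
    apply one_div_le_one_div_of_le (by norm_num)
    have : (0 : ℝ) ≤ n := Nat.cast_nonneg n
    linarith
  have hd1 : (1 : ℝ) ≤ d := by exact_mod_cast hd
  have hκd : ∀ n, κ n ^ d ≤ κ n := fun n => by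
    calc κ n ^ d ≤ κ n ^ 1 :=
          pow_le_pow_of_le_one (hκpos n).le ((hκ1 n).trans (by norm_num)) hd
      _ = κ n := pow_one _
  have hεd : ∀ n, (2 * d + 2) * ε n = κ n ^ d := fun n => by
    simp only [hε]; field_simp
  have hεκ : ∀ n, ε n ≤ κ n / 4 := fun n => by
    have h1 := hεd n
    have h2 := hκd n
    have h3 := hεpos n
    nlinarith
  have hκ0 : Tendsto κ atTop (𝓝 0) := by
    have h1 : Tendsto (fun n : ℕ => (n : ℝ) + 4) atTop atTop :=
      tendsto_atTop_add_const_right _ _ tendsto_natCast_atTop_atTop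
    exact h1.const_div_atTop 1
  have hε0 : Tendsto ε atTop (𝓝 0) := by
    refine squeeze_zero (fun n => (hεpos n).le) (fun n => ?_) hκ0
    have := hεκ n
    have := hκpos n
    linarith
  choose V hVdet hVadm hVle hVno using fun n => hcon (ε n) (hεpos n)
  -- covering
  have hs : ∀ n, 0 < 1 - 2 * ε n := fun n => by
    have := hεκ n
    have := hκ1 n
    linarith
  have hcov : ∀ n (x : Fin d → ℝ), ∃ z : Fin d → ℤ, NT (x - V n *ᵥ zr z) ≤ (1 + κ n) / 2 := by
    intro n x
    have h1 := hεpos n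
    have h2 := hεκ n
    have h3 := hκ1 n
    have h4 := hκpos n
    have hb : 1 - 2 * d * ε n ≤ (1 - 2 * ε n) ^ d := by
      have := one_add_mul_le_pow (a := -(2 * ε n)) (by linarith) d
      have e : 1 + -(2 * ε n) = 1 - 2 * ε n := by ring
      rw [e] at this
      linarith
    have hsum : |(V n).det| < (1 - 2 * ε n) ^ d + κ n ^ d := by
      have := hVle n
      have := hεd n
      linarith
    obtain ⟨z, hz⟩ := cover_of_dense (hVdet n) (hVadm n) (hs n) (by linarith) h4
      (by linarith) hsum x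
    exact ⟨z, hz.trans (by linarith)⟩
  set ω : Ultrafilter ℕ := hyperfilter ℕ with hω
  have hωat : (ω : Filter ℕ) ≤ atTop := Nat.hyperfilter_le_atTop
  set G := limG ω V with hG
  have hP : ∀ g ∈ G, g ≠ 0 → 1 ≤ NT g := by
    rintro g ⟨u, hu⟩ hg
    have hne : ∀ᶠ n in (ω : Filter ℕ), u n ≠ 0 := by
      by_contra h
      rw [← Ultrafilter.eventually_not] at h
      apply hg
      have h2 : Tendsto (fun n => V n *ᵥ zr (u n)) ω (𝓝 0) := by
        refine tendsto_const_nhds.congr' ?_
        filter_upwards [h] with n hn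
        have : u n = 0 := not_not.mp hn
        rw [this, zr_zero, Matrix.mulVec_zero]
      exact tendsto_nhds_unique hu h2
    have h3 : Tendsto (fun n => 1 - ε n) ω (𝓝 (1 - 0)) :=
      (tendsto_const_nhds.sub hε0).mono_left hωat
    rw [sub_zero] at h3
    have h4 : Tendsto (fun n => NT (V n *ᵥ zr (u n))) ω (𝓝 (NT g)) :=
      (continuous_NT.tendsto g).comp hu
    refine le_of_tendsto_of_tendsto h3 h4 ?_
    filter_upwards [hne] with n hn
    exact hVadm n _ hn
  have hC : ∀ x : Fin d → ℝ, ∃ g ∈ G, NT (x - g) ≤ 1 / 2 := by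
    intro x
    choose z hz using fun n => hcov n x
    set y : ℕ → (Fin d → ℝ) := fun n => V n *ᵥ zr (z n) with hy
    have hb : ∀ n, y n ∈ Metric.closedBall (0 : Fin d → ℝ) (3 / 2 * (NT x + 1)) := by
      intro n
      rw [Metric.mem_closedBall, dist_zero_right]
      refine (norm_le_NT (y n)).trans ?_
      have h1 : NT (y n) ≤ NT x + NT (x - y n) := by
        have e : y n = x - (x - y n) := by abel
        have := NT_sub_le x (x - y n)
        rwa [← e] at this
      have h2 := hz n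
      have h3 := hκ1 n
      have : NT (x - y n) ≤ 1 := h2.trans (by linarith)
      linarith
    obtain ⟨g, _, hg⟩ := (isCompact_closedBall (0 : Fin d → ℝ)
      (3 / 2 * (NT x + 1))).ultrafilter_le_nhds (ω.map y) (by
        rw [le_principal_iff]
        exact Filter.mem_map.mpr (Filter.univ_mem' hb))
    have hyg : Tendsto y ω (𝓝 g) := hg
    refine ⟨g, ⟨z, hyg⟩, ?_⟩
    have h1 : Tendsto (fun n => NT (x - y n)) ω (𝓝 (NT (x - g))) :=
      (continuous_NT.tendsto _).comp (tendsto_const_nhds.sub hyg)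
    have h2 : Tendsto (fun n => (1 + κ n) / 2) ω (𝓝 ((1 + 0) / 2)) :=
      ((tendsto_const_nhds.add hκ0).div_const 2).mono_left hωat
    rw [add_zero] at h2
    exact le_of_tendsto_of_tendsto' h1 h2 (fun n => hz n)
  -- the unit vectors are limits
  have hunit : ∀ i : Fin d, ∃ u : ℕ → (Fin d → ℤ),
      Tendsto (fun n => V n *ᵥ zr (u n)) ω (𝓝 (ind {i})) := by
    intro i
    exact tiling_unique hP hC ⟨{i}, Finset.singleton_nonempty i⟩
  choose u hu using hunit
  set A : ℕ → Matrix (Fin d) (Fin d) ℤ := fun n => Matrix.of (fun j i => u i n j) with hA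
  have hentry : ∀ n k i, (V n * (A n).map (Int.cast : ℤ → ℝ)) k i = (V n *ᵥ zr (u i n)) k := by
    intro n k i
    simp [Matrix.mul_apply, Matrix.mulVec, dotProduct, hA, zr]
  have hconv : ∀ k i, Tendsto (fun n => (V n * (A n).map (Int.cast : ℤ → ℝ)) k i) ω
      (𝓝 ((1 : Matrix (Fin d) (Fin d) ℝ) k i)) := by
    intro k i
    simp only [hentry]
    have h1 := (continuous_apply k).tendsto (ind {i}) |>.comp (hu i)
    have h2 : ind {i} k = (1 : Matrix (Fin d) (Fin d) ℝ) k i := by
      simp [ind, Matrix.one_apply]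
    rw [← h2]
    exact h1
  have hconvM : Tendsto (fun n => V n * (A n).map (Int.cast : ℤ → ℝ)) ω
      (𝓝 (1 : Matrix (Fin d) (Fin d) ℝ)) := by
    exact tendsto_pi_nhds.mpr fun k => tendsto_pi_nhds.mpr fun i => hconv k i
  have hdet : Tendsto (fun n => (V n * (A n).map (Int.cast : ℤ → ℝ)).det) ω (𝓝 1) := by
    have hc : Continuous fun M : Matrix (Fin d) (Fin d) ℝ => M.det :=
      Continuous.matrix_det continuous_id
    have := (hc.tendsto 1).comp hconvM
    rw [Matrix.det_one] at this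
    exact this
  have hev1 : ∀ᶠ n in (ω : Filter ℕ), ∀ k i,
      |(V n * (A n).map (Int.cast : ℤ → ℝ)) k i - (1 : Matrix (Fin d) (Fin d) ℝ) k i| < η := by
    rw [Filter.eventually_all]
    intro k
    rw [Filter.eventually_all]
    intro i
    have := (Metric.tendsto_nhds.mp (hconv k i)) η hη
    filter_upwards [this] with n hn
    rwa [Real.dist_eq] at hn
  have hev2 : ∀ᶠ n in (ω : Filter ℕ), 1 / 2 < (V n * (A n).map (Int.cast : ℤ → ℝ)).det :=
    hdet.eventually (lt_mem_nhds (by norm_num))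
  have hev3 : ∀ᶠ n in (ω : Filter ℕ), (V n * (A n).map (Int.cast : ℤ → ℝ)).det < 3 / 2 :=
    hdet.eventually (gt_mem_nhds (by norm_num))
  obtain ⟨n, hn1, hn2, hn3⟩ := (hev1.and (hev2.and hev3)).exists
  have hdetA : ((A n).map (Int.cast : ℤ → ℝ)).det = (((A n).det : ℤ) : ℝ) := by
    rw [Int.cast_det]
  rw [Matrix.det_mul, hdetA] at hn2 hn3
  have hVge : 3 / 4 ≤ |(V n).det| := by
    have h1 := det_ge (hVdet n) (hVadm n) (hs n) (by have := hεpos n; linarith)
    have hb : 1 - 2 * d * ε n ≤ (1 - 2 * ε n) ^ d := by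
      have h2 := hεκ n
      have h3 := hκ1 n
      have := one_add_mul_le_pow (a := -(2 * ε n)) (by linarith) d
      have e : 1 + -(2 * ε n) = 1 - 2 * ε n := by ring
      rw [e] at this
      linarith
    have h4 := hεd n
    have h5 := hκd n
    have h6 := hκ1 n
    have h7 := hεpos n
    linarith
  have hAabs : |(((A n).det : ℤ) : ℝ)| < 2 := by
    have h1 : |(V n).det| * |(((A n).det : ℤ) : ℝ)| < 3 / 2 := by
      rw [← abs_mul, abs_lt]; constructor <;> linarith
    have h2 := abs_nonneg (((A n).det : ℤ) : ℝ)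
    nlinarith
  have hA0 : (A n).det ≠ 0 := by
    intro h0
    rw [h0] at hn2
    norm_num at hn2
  have hA1 : |(A n).det| = 1 := by
    have h1 : |(A n).det| < 2 := by
      have : (|(A n).det| : ℝ) < 2 := by exact_mod_cast hAabs
      exact_mod_cast this
    have h2 : 0 < |(A n).det| := abs_pos.mpr hA0
    omega
  obtain ⟨i, j, hij⟩ := hVno n (A n) hA1
  exact absurd (hn1 i j) (not_lt.mpr hij)

end Pool.Agent.Helper37.Lat
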