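import Pool.Agent.Helper37.Lat.L5

set_option autoImplicit false

/-! Determinant inequalities and local strict minimality of the determinant. -/

namespace Pool.Agent.Helper37.Lat

open Finset Filter Topology
open scoped Matrix MatrixOrder

section Det

variable {n : Type*} [Fintype n] [DecidableEq n]

lemma one_add_sum_le_prod (s : Finset n) (a : n → ℝ) (ha : ∀ i, 0 ≤ a i) :
    1 + ∑ i ∈ s, a i ≤ ∏ i ∈ s, (1 + a i) := by
  induction s using Finset.induction_on with
  | empty => simp
  | insert i s hi ih =>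
    rw [Finset.sum_insert hi, Finset.prod_insert hi]
    have h1 : 0 ≤ ∑ i ∈ s, a i := Finset.sum_nonneg fun i _ => ha i
    nlinarith [ha i]

lemma det_one_add_ge {N : Matrix n n ℝ} (hN : N.PosSemidef) : 1 + N.trace ≤ (1 + N).det := by
  have h := hN.isHermitian.spectral_theorem
  set D : Matrix n n ℝ := Matrix.diagonal (RCLike.ofReal ∘ hN.isHermitian.eigenvalues) with hD
  have e1 : (1 + N).det = (1 + D).det := by
    have h2 : (1 + N) = (hN.isHermitian.eigenvectorUnitary : Matrix n n ℝ) * (1 + D) *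
        star (hN.isHermitian.eigenvectorUnitary : Matrix n n ℝ) := by
      conv_lhs => rw [h]
      rw [Unitary.conjStarAlgAut_apply, mul_add, add_mul, mul_one]
      congr 1
      exact (Unitary.coe_mul_star_self _).symm
    rw [h2, Matrix.det_mul, Matrix.det_mul, mul_comm, ← mul_assoc, ← Matrix.det_mul,
      Unitary.coe_star_mul_self, Matrix.det_one, one_mul]
  have e2 : (1 + D).det = ∏ i, (1 + hN.isHermitian.eigenvalues i) := by
    have : (1 + D) = Matrix.diagonal (fun i => 1 + hN.isHermitian.eigenvalues i) := by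
      rw [hD, ← Matrix.diagonal_one, Matrix.diagonal_add]
      rfl
    rw [this, Matrix.det_diagonal]
  have e3 : N.trace = ∑ i, hN.isHermitian.eigenvalues i := hN.isHermitian.trace_eq_sum_eigenvalues
  rw [e1, e2, e3]
  exact one_add_sum_le_prod _ _ (fun i => hN.eigenvalues_nonneg i)

lemma sq_det_one_add_skew {K : Matrix n n ℝ} (hK : Kᵀ = -K) :
    1 + (Kᵀ * K).trace ≤ (1 + K).det ^ 2 := by
  have h1 : (1 + K).det = (1 - K).det := by
    rw [← Matrix.det_transpose, Matrix.transpose_add, Matrix.transpose_one, hK, sub_eq_add_neg]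
  have h2 : (1 + K).det ^ 2 = (1 + Kᵀ * K).det := by
    rw [sq]
    nth_rw 2 [h1]
    rw [← Matrix.det_mul]
    congr 1
    rw [hK]; noncomm_ring
  rw [h2]
  exact det_one_add_ge (Matrix.posSemidef_conjTranspose_mul_self K)

lemma det_add_skew {M A : Matrix n n ℝ} (hM : M.PosDef) (hA : Aᵀ = -A)
    (hpos : 0 < (M + A).det) :
    M.det ≤ (M + A).det ∧ ((M + A).det = M.det → A = 0) := by
  obtain ⟨C, hC, hMC⟩ := CStarAlgebra.isStrictlyPositive_iff_eq_star_mul_self.mp
    hM.isStrictlyPositive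
  have hMC' : M = Cᵀ * C := by rw [hMC, Matrix.star_eq_conjTranspose, Matrix.conjTranspose_eq_transpose_of_trivial]
  have hCdet : IsUnit C.det := (Matrix.isUnit_iff_isUnit_det C).mp hC
  set K : Matrix n n ℝ := (C⁻¹)ᵀ * A * C⁻¹ with hKdef
  have hK : Kᵀ = -K := by
    rw [hKdef, Matrix.transpose_mul, Matrix.transpose_mul, Matrix.transpose_transpose, hA]
    simp [Matrix.mul_assoc]
  have hCC : C⁻¹ * C = 1 := Matrix.nonsing_inv_mul C hCdet
  have hCtC : Cᵀ * (C⁻¹)ᵀ = 1 := by rw [← Matrix.transpose_mul, hCC, Matrix.transpose_one]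
  have hA' : A = Cᵀ * K * C := by
    rw [hKdef]
    calc A = (Cᵀ * (C⁻¹)ᵀ) * A * (C⁻¹ * C) := by rw [hCtC, hCC, one_mul, mul_one]
      _ = Cᵀ * ((C⁻¹)ᵀ * A * C⁻¹) * C := by simp only [Matrix.mul_assoc]
  have hMA : M + A = Cᵀ * (1 + K) * C := by
    rw [mul_add, add_mul, mul_one, ← hA', ← hMC']
  have hdet : (M + A).det = M.det * (1 + K).det := by
    rw [hMA, hMC', Matrix.det_mul, Matrix.det_mul, Matrix.det_mul]; ring
  have hMpos : 0 < M.det := hM.det_pos
  have h1 : 0 < (1 + K).det := by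
    rw [hdet] at hpos
    exact (pos_iff_pos_of_mul_pos hpos).mp hMpos
  have h2 := sq_det_one_add_skew hK
  have h3 : 0 ≤ (Kᵀ * K).trace := by
    have := (Matrix.posSemidef_conjTranspose_mul_self K).trace_nonneg
    rwa [Matrix.conjTranspose_eq_transpose_of_trivial] at this
  have h4 : 1 ≤ (1 + K).det := by nlinarith
  refine ⟨?_, fun heq => ?_⟩
  · rw [hdet]; nlinarith
  · have h5 : (1 + K).det = 1 := by
      rw [hdet] at heq
      have : M.det * ((1 + K).det - 1) = 0 := by linarith
      rcases mul_eq_zero.mp this with h | h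
      · exact absurd h hMpos.ne'
      · linarith
    rw [h5] at h2
    have h6 : (Kᵀ * K).trace = 0 := by linarith
    have h7 : K = 0 := by
      rw [← Matrix.conjTranspose_eq_transpose_of_trivial] at h6
      exact Matrix.trace_conjTranspose_mul_self_eq_zero_iff.mp h6
    rw [hA', h7]; simp

end Det

/-- first order expansion of the determinant at the identity -/
lemma det_first_order (d : ℕ) {c : ℝ} (hc : 0 < c) :
    ∃ δ : ℝ, 0 < δ ∧ ∀ X : Matrix (Fin d) (Fin d) ℝ, ∀ m : ℝ, 0 ≤ m → m ≤ δ →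
      (∀ i j, |X i j| ≤ m) → |(1 + X).det - 1 - X.trace| ≤ c * m := by
  set F : (Fin d → Fin d → ℝ) → ℝ := fun X => (1 + Matrix.of X).det with hF
  have hdiff : Differentiable ℝ F := by
    rw [hF]
    simp only [Matrix.det_apply, Matrix.add_apply, Matrix.of_apply]
    refine Differentiable.fun_sum fun σ _ => Differentiable.const_smul ?_ _
    fun_prop
  obtain ⟨F', hF'⟩ := hdiff.differentiableAt (x := (0 : Fin d → Fin d → ℝ))
  have htr : ∀ X : Fin d → Fin d → ℝ, F' X = Matrix.trace (Matrix.of X) := by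
    intro X
    have h1 : HasDerivAt (fun t : ℝ => F (t • X)) (F' X) 0 := by
      have h2 : HasDerivAt (fun t : ℝ => t • X) ((1 : ℝ) • X) 0 := (hasDerivAt_id (0 : ℝ)).smul_const X
      rw [one_smul] at h2
      have h3 : HasFDerivAt F F' ((0 : ℝ) • X) := by rw [zero_smul]; exact hF'
      exact h3.comp_hasDerivAt 0 h2
    set p : Polynomial ℝ := Matrix.det (1 + (Polynomial.X : Polynomial ℝ) •
      (Matrix.of X).map Polynomial.C) with hp
    have h4 : ∀ t : ℝ, F (t • X) = p.eval t := by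
      intro t
      have e : F (t • X) = (1 + t • Matrix.of X).det := rfl
      rw [e, hp, Matrix.det_one_add_smul]
      have h := congr_arg (Polynomial.eval t) (Matrix.det_one_add_X_smul (Matrix.of X))
      rw [h]
      simp [mul_comm]
    have h5 : HasDerivAt (fun t : ℝ => F (t • X)) (p.derivative.eval 0) 0 := by
      have : (fun t : ℝ => F (t • X)) = fun t => p.eval t := funext h4
      rw [this]
      exact p.hasDerivAt 0
    rw [h1.unique h5, hp, Matrix.derivative_det_one_add_X_smul]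
  have hlo := hF'.isLittleO
  have := hlo.def hc
  rw [Metric.eventually_nhds_iff] at this
  obtain ⟨δ, hδ, hb⟩ := this
  refine ⟨δ / 2, by positivity, fun X m hm0 hm hX => ?_⟩
  set Y : Fin d → Fin d → ℝ := Matrix.of.symm X with hY
  have hn : ‖Y‖ ≤ m := by
    rw [pi_norm_le_iff_of_nonneg hm0]
    intro i
    rw [pi_norm_le_iff_of_nonneg hm0]
    intro j
    exact hX i j
  have h1 := hb (y := Y) (by rw [dist_zero_right]; linarith)
  rw [sub_zero, htr] at h1
  have h0 : F 0 = 1 := by
    simp only [hF]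
    have : (1 + (0 : Matrix (Fin d) (Fin d) ℝ)).det = 1 := by rw [add_zero, Matrix.det_one]
    exact this
  rw [h0, Real.norm_eq_abs] at h1
  exact h1.trans (mul_le_mul_of_nonneg_left hn hc.le)

variable {d : ℕ}

/-- Gram matrix of `B` -/
def Qm (d : ℕ) : Matrix (Fin d) (Fin d) ℝ := Matrix.of fun i j => (if i = j then (2 * d : ℝ) else 0) - 1

/-- inverse of the Gram matrix of `B` -/
noncomputable def Tm (d : ℕ) : Matrix (Fin d) (Fin d) ℝ :=
  Matrix.of fun i j => ((if i = j then (1 : ℝ) else 0) + 1 / d) / (2 * d)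

lemma Tm_mul_Qm (hd : 0 < d) : Tm d * Qm d = 1 := by
  have hd' : (d : ℝ) ≠ 0 := by positivity
  ext i j
  rw [Matrix.mul_apply]
  simp only [Tm, Qm, Matrix.of_apply]
  have h1 : ∀ k : Fin d, ((if i = k then (1 : ℝ) else 0) + 1 / d) / (2 * d) *
      ((if k = j then (2 * d : ℝ) else 0) - 1) =
      (if i = k then (if k = j then 1 else 0) else 0) - (if i = k then 1 / (2 * d : ℝ) else 0)
       + (if k = j then 1 / (d : ℝ) else 0) - 1 / (2 * d * d) := by
    intro k
    split_ifs <;> field_simp <;> ring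
  rw [Finset.sum_congr rfl fun k _ => h1 k]
  rw [Finset.sum_sub_distrib, Finset.sum_add_distrib, Finset.sum_sub_distrib]
  simp only [Finset.sum_ite_eq, Finset.sum_ite_eq', Finset.mem_univ, if_true, Finset.sum_const,
    Finset.card_univ, Fintype.card_fin, Matrix.one_apply]
  rw [nsmul_eq_mul]
  field_simp
  ring

lemma dot_Qm (x y : Fin d → ℝ) : y ⬝ᵥ (Qm d *ᵥ x) = B x y := by
  simp only [dotProduct, Matrix.mulVec, Qm, Matrix.of_apply, sub_mul, ite_mul, zero_mul, one_mul,
    Finset.sum_sub_distrib, Finset.sum_ite_eq, Finset.mem_univ, if_true, B]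
  simp only [mul_sub, Finset.sum_sub_distrib, Finset.mul_sum]
  congr 1
  · exact Finset.sum_congr rfl fun i _ => by ring
  · refine Finset.sum_congr rfl fun i _ => ?_
    rw [Finset.sum_mul]
    exact Finset.sum_congr rfl fun j _ => by ring

lemma posDef_Qm_add {P : Matrix (Fin d) (Fin d) ℝ} (hP : Pᵀ = P) (hb : ∀ i j, |P i j| ≤ 1 / 2) :
    (Qm d + P).PosDef := by
  refine Matrix.PosDef.of_dotProduct_mulVec_pos ?_ ?_
  · rw [Matrix.IsHermitian, Matrix.conjTranspose_eq_transpose_of_trivial, Matrix.transpose_add, hP]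
    congr 1
    ext i j
    simp only [Qm, Matrix.transpose_apply, Matrix.of_apply, eq_comm]
  · intro x hx
    rw [star_trivial, Matrix.add_mulVec, dotProduct_add, dot_Qm]
    have h1 := B_self_ge x
    obtain ⟨i, hi⟩ := Function.ne_iff.mp hx
    have hd : 0 < d := lt_of_le_of_lt (Nat.zero_le _) i.2
    have hd' : (0 : ℝ) < d := by exact_mod_cast hd
    have h2 : 0 < ∑ i, x i ^ 2 := by
      refine Finset.sum_pos' (fun i _ => sq_nonneg _) ⟨i, Finset.mem_univ _, ?_⟩
      have : x i ≠ 0 := hi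
      positivity
    have h3 : |x ⬝ᵥ (P *ᵥ x)| ≤ 1 / 2 * (∑ i, |x i|) ^ 2 := by
      simp only [dotProduct, Matrix.mulVec]
      calc |∑ i, x i * ∑ j, P i j * x j| ≤ ∑ i, |x i * ∑ j, P i j * x j| :=
            Finset.abs_sum_le_sum_abs _ _
        _ ≤ ∑ i, |x i| * (1 / 2 * ∑ j, |x j|) := by
            refine Finset.sum_le_sum fun i _ => ?_
            rw [abs_mul]
            refine mul_le_mul_of_nonneg_left ?_ (abs_nonneg _)
            refine (Finset.abs_sum_le_sum_abs _ _).trans ?_
            rw [Finset.mul_sum]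
            refine Finset.sum_le_sum fun j _ => ?_
            rw [abs_mul]
            exact mul_le_mul_of_nonneg_right (hb i j) (abs_nonneg _)
        _ = 1 / 2 * (∑ i, |x i|) ^ 2 := by rw [← Finset.sum_mul]; ring
    have h4 : (∑ i, |x i|) ^ 2 ≤ d * ∑ i, x i ^ 2 := by
      have := sq_sum_le_card_mul_sum_sq (s := (Finset.univ : Finset (Fin d))) (f := fun i => |x i|)
      simpa using this
    have h5 := (abs_le.mp h3).1
    have h6 : 0 < d * ∑ i, x i ^ 2 := by positivity
    linarith

lemma abs_Qm_le (i j : Fin d) : |Qm d i j| ≤ 2 * d := by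
  have hd : 0 < d := lt_of_le_of_lt (Nat.zero_le _) i.2
  have hd' : (1 : ℝ) ≤ d := by exact_mod_cast hd
  simp only [Qm, Matrix.of_apply]
  split_ifs <;> rw [abs_le] <;> constructor <;> linarith

lemma sum_Tm (i : Fin d) : ∑ k, |Tm d i k| = 1 / d := by
  have hd : 0 < d := lt_of_le_of_lt (Nat.zero_le _) i.2
  have hd' : (d : ℝ) ≠ 0 := by positivity
  have h1 : ∀ k, |Tm d i k| = (if i = k then 1 / (2 * d : ℝ) else 0) + 1 / (2 * d * d) := by
    intro k
    have : 0 ≤ Tm d i k := by
      simp only [Tm, Matrix.of_apply]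
      split_ifs <;> positivity
    rw [abs_of_nonneg this]
    simp only [Tm, Matrix.of_apply]
    split_ifs <;> field_simp <;> ring
  rw [Finset.sum_congr rfl fun k _ => h1 k, Finset.sum_add_distrib]
  simp only [Finset.sum_ite_eq, Finset.mem_univ, if_true, Finset.sum_const,
    Finset.card_univ, Fintype.card_fin]
  rw [nsmul_eq_mul]
  field_simp
  ring

lemma trace_Tm_mul (hd : 0 < d) (Z : Matrix (Fin d) (Fin d) ℝ) :
    2 * d * d * (Tm d * Z).trace = d * Z.trace + ∑ i, ∑ j, Z i j := by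
  have hd' : (d : ℝ) ≠ 0 := by positivity
  simp only [Matrix.trace, Matrix.diag_apply, Matrix.mul_apply, Tm, Matrix.of_apply]
  have h1 : ∀ i k : Fin d, ((if i = k then (1 : ℝ) else 0) + 1 / d) / (2 * d) * Z k i =
      (if i = k then Z k i / (2 * d) else 0) + Z k i / (2 * d * d) := by
    intro i k
    split_ifs <;> field_simp <;> ring
  rw [Finset.sum_congr rfl fun i _ => Finset.sum_congr rfl fun k _ => h1 i k]
  simp only [Finset.sum_add_distrib, Finset.sum_ite_eq, Finset.mem_univ, if_true]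
  rw [Finset.sum_comm (f := fun x x_1 => Z x_1 x / (2 * d * d))]
  simp only [← Finset.sum_div]
  field_simp

theorem local_min (hd : 0 < d) : ∃ η : ℝ, 0 < η ∧ ∀ X : Matrix (Fin d) (Fin d) ℝ,
    (∀ i j, |X i j| ≤ η) →
    (∀ i j, 0 ≤ (Qm d * X) i i + (Qm d * X) j j + (Qm d * X) i j + (Qm d * X) j i) →
    1 ≤ (1 + X).det ∧ ((1 + X).det = 1 → X = 0) := by
  have hd1 : (1 : ℝ) ≤ d := by exact_mod_cast hd
  have hd0 : (0 : ℝ) < d := by linarith
  obtain ⟨δ, hδ, hdet⟩ := det_first_order d (c := 1 / (4 * d)) (by positivity)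
  refine ⟨min (δ / (2 * d * d)) (1 / (4 * d * d)), by positivity, fun X hX hs => ?_⟩
  set η := min (δ / (2 * d * d)) (1 / (4 * d * d)) with hη
  have hη0 : 0 < η := by positivity
  have hη1 : 2 * d * d * η ≤ δ := by
    have : η ≤ δ / (2 * d * d) := min_le_left _ _
    rwa [le_div_iff₀ (by positivity), mul_comm] at this
  have hη2 : 4 * d * d * η ≤ 1 := by
    have : η ≤ 1 / (4 * d * d) := min_le_right _ _
    rwa [le_div_iff₀ (by positivity), mul_comm] at this
  set Y := Qm d * X with hY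
  set P : Matrix (Fin d) (Fin d) ℝ := (1 / 2 : ℝ) • (Y + Yᵀ) with hP
  set A : Matrix (Fin d) (Fin d) ℝ := (1 / 2 : ℝ) • (Y - Yᵀ) with hA
  have hPA : P + A = Y := by
    rw [hP, hA, ← smul_add]
    ext i j
    simp only [Matrix.smul_apply, Matrix.add_apply, Matrix.sub_apply, smul_eq_mul]
    ring
  have hPt : Pᵀ = P := by
    rw [hP]; ext i j
    simp only [Matrix.smul_apply, Matrix.add_apply, Matrix.transpose_apply, smul_eq_mul]
    ring
  have hAt : Aᵀ = -A := by
    rw [hA]; ext i j
    simp only [Matrix.smul_apply, Matrix.sub_apply, Matrix.transpose_apply, smul_eq_mul,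
      Matrix.neg_apply]
    ring
  have hPe : ∀ i j, P i j = (Y i j + Y j i) / 2 := by
    intro i j
    rw [hP]
    simp only [Matrix.smul_apply, Matrix.add_apply, Matrix.transpose_apply, smul_eq_mul]
    ring
  have hYb : ∀ i j, |Y i j| ≤ 2 * d * d * η := by
    intro i j
    rw [hY, Matrix.mul_apply]
    refine (Finset.abs_sum_le_sum_abs _ _).trans ?_
    calc ∑ k, |Qm d i k * X k j| ≤ ∑ k : Fin d, 2 * d * η := by
          refine Finset.sum_le_sum fun k _ => ?_
          rw [abs_mul]
          exact mul_le_mul (abs_Qm_le i k) (hX k j) (abs_nonneg _) (by positivity)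
      _ = 2 * d * d * η := by
          simp only [Finset.sum_const, Finset.card_univ, Fintype.card_fin, nsmul_eq_mul]; ring
  have hPb : ∀ i j, |P i j| ≤ 1 / 2 := by
    intro i j
    have h1 := abs_le.mp (hYb i j)
    have h2 := abs_le.mp (hYb j i)
    rw [hPe, abs_le]
    constructor <;> linarith [h1.1, h1.2, h2.1, h2.2]
  have hXTY : Tm d * Y = X := by
    rw [hY, ← Matrix.mul_assoc, Tm_mul_Qm hd, one_mul]
  set τ := X.trace with hτ
  have htY := trace_Tm_mul hd Y
  have htP := trace_Tm_mul hd P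
  rw [hXTY, ← hτ] at htY
  have hsumP : ∑ i, ∑ j, P i j = ∑ i, ∑ j, Y i j := by
    have h1 : ∑ i, ∑ j, P i j = (∑ i, ∑ j, Y i j + ∑ i, ∑ j, Y j i) / 2 := by
      rw [← Finset.sum_add_distrib, Finset.sum_div]
      refine Finset.sum_congr rfl fun i _ => ?_
      rw [← Finset.sum_add_distrib, Finset.sum_div]
      exact Finset.sum_congr rfl fun j _ => hPe i j
    rw [h1, Finset.sum_comm (f := fun i j => Y j i)]; ring
  have htrP : P.trace = Y.trace := by
    simp only [Matrix.trace, Matrix.diag_apply]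
    refine Finset.sum_congr rfl fun i _ => ?_
    rw [hPe]; ring
  have hTP : (Tm d * P).trace = τ := by
    rw [hsumP, htrP, ← htY] at htP
    have : (2 * d * d : ℝ) ≠ 0 := by positivity
    exact mul_left_cancel₀ this htP
  set s : Fin d → Fin d → ℝ := fun i j => Y i i + Y j j + Y i j + Y j i with hsdef
  have hsum : ∑ i, ∑ j, s i j = 4 * d ^ 2 * τ := by
    have h1 : ∑ i, ∑ j, s i j = d * Y.trace + d * Y.trace + ∑ i, ∑ j, Y i j + ∑ i, ∑ j, Y j i := by
      simp only [hsdef, Finset.sum_add_distrib, Finset.sum_const, Finset.card_univ,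
        Fintype.card_fin, nsmul_eq_mul, Matrix.trace, Matrix.diag_apply, ← Finset.mul_sum]
    rw [h1, Finset.sum_comm (f := fun i j => Y j i)]
    linarith
  have hs' : ∀ i j, 0 ≤ s i j := hs
  have hsle : ∀ i j, s i j ≤ 4 * d ^ 2 * τ := by
    intro i j
    rw [← hsum]
    calc s i j ≤ ∑ j, s i j := Finset.single_le_sum (fun j _ => hs' i j) (Finset.mem_univ j)
      _ ≤ ∑ i, ∑ j, s i j := Finset.single_le_sum (f := fun i => ∑ j, s i j)
          (fun i _ => Finset.sum_nonneg fun j _ => hs' i j) (Finset.mem_univ i)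
  have hτ0 : 0 ≤ τ := by
    have h1 := hsum
    have h2 : 0 ≤ ∑ i, ∑ j, s i j := Finset.sum_nonneg fun i _ => Finset.sum_nonneg fun j _ => hs' i j
    rw [h1] at h2
    exact nonneg_of_mul_nonneg_right h2 (by positivity)
  have hPs : ∀ i j, P i j = (s i j - s i i / 4 - s j j / 4) / 2 := by
    intro i j
    rw [hPe]
    simp only [hsdef]
    ring
  have hPτ : ∀ i j, |P i j| ≤ 2 * d ^ 2 * τ := by
    intro i j
    rw [hPs, abs_le]
    have h1 := hsle i j
    have h2 := hsle i i
    have h3 := hsle j j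
    have h4 := hs' i j
    have h5 := hs' i i
    have h6 := hs' j j
    constructor <;> linarith
  have hτle : τ ≤ d * η := by
    rw [hτ, Matrix.trace]
    calc ∑ i, Matrix.diag X i ≤ ∑ i : Fin d, η :=
          Finset.sum_le_sum fun i _ => (le_abs_self _).trans (hX i i)
      _ = d * η := by
          simp only [Finset.sum_const, Finset.card_univ, Fintype.card_fin, nsmul_eq_mul]
  set E := Tm d * P with hE
  have hEb : ∀ i j, |E i j| ≤ 2 * d * τ := by
    intro i j
    rw [hE, Matrix.mul_apply]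
    refine (Finset.abs_sum_le_sum_abs _ _).trans ?_
    calc ∑ k, |Tm d i k * P k j| ≤ ∑ k : Fin d, |Tm d i k| * (2 * d ^ 2 * τ) := by
          refine Finset.sum_le_sum fun k _ => ?_
          rw [abs_mul]
          exact mul_le_mul_of_nonneg_left (hPτ k j) (abs_nonneg _)
      _ = 2 * d * τ := by
          rw [← Finset.sum_mul, sum_Tm]; field_simp
  have hdetE : 1 + τ / 2 ≤ (1 + E).det := by
    have h1 := hdet E (2 * d * τ) (by positivity) (by nlinarith) hEb
    rw [hTP] at h1
    have h2 := (abs_le.mp h1).1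
    have h3 : 1 / (4 * d) * (2 * d * τ) = τ / 2 := by field_simp; ring
    rw [h3] at h2
    linarith
  have hQE : Qm d * (1 + E) = Qm d + P := by
    have hQT : Qm d * Tm d = 1 := mul_eq_one_comm.mp (Tm_mul_Qm hd)
    rw [mul_add, mul_one, hE, ← Matrix.mul_assoc, hQT, one_mul]
  have hQV : Qm d * (1 + X) = (Qm d + P) + A := by
    rw [mul_add, mul_one, ← hY, add_assoc, hPA]
  have hQpos : 0 < (Qm d).det := by
    have h1 := (posDef_Qm_add (P := (0 : Matrix (Fin d) (Fin d) ℝ)) (by simp)
      (by intro i j; simp)).det_pos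
    rwa [add_zero] at h1
  have hVpos : 0 < (1 + X).det := by
    have h1 := hdet X η hη0.le (by nlinarith) hX
    have h2 := (abs_le.mp h1).1
    have h3 : 1 / (4 * d) * η ≤ 1 / 4 * η := by
      refine mul_le_mul_of_nonneg_right ?_ hη0.le
      apply one_div_le_one_div_of_le (by norm_num)
      linarith
    have h4 : η ≤ 1 / 4 := by nlinarith
    linarith
  have hpos : 0 < ((Qm d + P) + A).det := by
    rw [← hQV, Matrix.det_mul]; positivity
  obtain ⟨k1, k2⟩ := det_add_skew (posDef_Qm_add hPt hPb) hAt hpos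
  rw [← hQV, ← hQE, Matrix.det_mul, Matrix.det_mul] at k1 k2
  have k3 : (1 + E).det ≤ (1 + X).det := le_of_mul_le_mul_left k1 hQpos
  refine ⟨by linarith, fun h1 => ?_⟩
  have h2 : τ = 0 := by linarith
  have h3 : (1 + E).det = 1 := by
    apply le_antisymm
    · linarith
    · linarith
  have hA0 : A = 0 := k2 (by rw [h1, h3])
  have hP0 : P = 0 := by
    ext i j
    have := hPτ i j
    rw [h2, mul_zero] at this
    exact abs_nonpos_iff.mp this
  rw [← hXTY, ← hPA, hA0, hP0, add_zero, mul_zero]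

lemma compact_box (r : ℝ) : IsCompact {X : Matrix (Fin d) (Fin d) ℝ | ∀ i j, |X i j| ≤ r} := by
  have h1 : IsCompact (Set.pi Set.univ fun _ : Fin d => Set.pi Set.univ fun _ : Fin d =>
      Set.Icc (-r) r) := isCompact_univ_pi fun _ => isCompact_univ_pi fun _ => isCompact_Icc
  have h2 : {X : Matrix (Fin d) (Fin d) ℝ | ∀ i j, |X i j| ≤ r} =
      (Set.pi Set.univ fun _ : Fin d => Set.pi Set.univ fun _ : Fin d => Set.Icc (-r) r :
        Set (Matrix (Fin d) (Fin d) ℝ)) := by
    ext X
    constructor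
    · intro h i _ j _
      exact abs_le.mp (h i j)
    · intro h i j
      exact abs_le.mpr (h i (Set.mem_univ i) j (Set.mem_univ j))
  rw [h2]
  exact h1

lemma continuous_entry (i j : Fin d) : Continuous fun X : Matrix (Fin d) (Fin d) ℝ => X i j :=
  continuous_id.matrix_elem i j

lemma ind_single (i : Fin d) : ind {i} = Pi.single i (1 : ℝ) := by
  funext k
  simp only [ind, Finset.mem_singleton, Pi.single_apply]

lemma ind_pair {i j : Fin d} (h : i ≠ j) :
    ind {i, j} = Pi.single i (1 : ℝ) + Pi.single j (1 : ℝ) := by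
  funext k
  simp only [ind, Finset.mem_insert, Finset.mem_singleton, Pi.add_apply, Pi.single_apply]
  by_cases h1 : k = i
  · have h2 : k ≠ j := fun e => h (h1.symm.trans e)
    simp [h1, h]
  · by_cases h2 : k = j
    · simp [h2, Ne.symm h]
    · simp [h1, h2]

/-- the facet constraints on pairs and singletons -/
lemma constraints {X : Matrix (Fin d) (Fin d) ℝ}
    (h : ∀ I : J d, I.1.card ≤ 2 → 1 ≤ f I ((1 + X) *ᵥ ind I.1)) (i j : Fin d) :
    0 ≤ (Qm d * X) i i + (Qm d * X) j j + (Qm d * X) i j + (Qm d * X) j i := by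
  have key : ∀ I : J d, I.1.card ≤ 2 → 0 ≤ ind I.1 ⬝ᵥ ((Qm d * X) *ᵥ ind I.1) := by
    intro I hI
    have h1 := h I hI
    rw [Matrix.add_mulVec, Matrix.one_mulVec, f_add, f_self] at h1
    have h2 : 0 ≤ f I (X *ᵥ ind I.1) := by linarith
    unfold f at h2
    rw [← Matrix.mulVec_mulVec, dot_Qm]
    have hq := q_pos I.2
    have h3 := mul_nonneg h2 hq.le
    rwa [div_mul_cancel₀ _ hq.ne'] at h3
  by_cases hij : i = j
  · subst hij
    have h1 := key ⟨{i}, Finset.singleton_nonempty i⟩ (by simp)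
    simp only [ind_single] at h1
    rw [Matrix.mulVec_single_one, single_one_dotProduct] at h1
    simp only [Matrix.col_apply] at h1
    linarith
  · have h1 := key ⟨{i, j}, ⟨i, by simp⟩⟩ (by rw [Finset.card_pair hij])
    simp only [ind_pair hij] at h1
    rw [Matrix.mulVec_add, add_dotProduct, dotProduct_add, dotProduct_add,
      Matrix.mulVec_single_one, Matrix.mulVec_single_one, single_one_dotProduct,
      single_one_dotProduct, single_one_dotProduct, single_one_dotProduct] at h1
    simp only [Matrix.col_apply] at h1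
    linarith

theorem stab2 (hd : 0 < d) : ∃ η0 : ℝ, 0 < η0 ∧ ∀ η2 : ℝ, 0 < η2 → ∃ ε : ℝ, 0 < ε ∧
    ∀ X : Matrix (Fin d) (Fin d) ℝ, (∀ i j, |X i j| ≤ η0) →
      (∀ I : J d, I.1.card ≤ 2 → 1 ≤ f I ((1 + X) *ᵥ ind I.1)) → (1 + X).det ≤ 1 + ε →
      ∀ i j, |X i j| < η2 := by
  obtain ⟨η0, hη0, hmin⟩ := local_min hd
  refine ⟨η0, hη0, fun η2 hη2 => ?_⟩
  set S : Set (Matrix (Fin d) (Fin d) ℝ) := {X | (∀ i j, |X i j| ≤ η0)} ∩
    ({X | ∀ i j, 0 ≤ (Qm d * X) i i + (Qm d * X) j j + (Qm d * X) i j + (Qm d * X) j i} ∩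
    ⋃ p : Fin d × Fin d, {X | η2 ≤ |X p.1 p.2|}) with hS
  have hcl1 : IsClosed {X : Matrix (Fin d) (Fin d) ℝ | ∀ i j,
      0 ≤ (Qm d * X) i i + (Qm d * X) j j + (Qm d * X) i j + (Qm d * X) j i} := by
    have e : {X : Matrix (Fin d) (Fin d) ℝ | ∀ i j,
      0 ≤ (Qm d * X) i i + (Qm d * X) j j + (Qm d * X) i j + (Qm d * X) j i} = ⋂ i, ⋂ j, {X |
      0 ≤ (Qm d * X) i i + (Qm d * X) j j + (Qm d * X) i j + (Qm d * X) j i} := by
      ext X; simp
    rw [e]
    refine isClosed_iInter fun i => isClosed_iInter fun j => isClosed_le continuous_const ?_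
    have hc : Continuous fun X : Matrix (Fin d) (Fin d) ℝ => Qm d * X := by fun_prop
    have hc' : ∀ a b, Continuous fun X : Matrix (Fin d) (Fin d) ℝ => (Qm d * X) a b := fun a b =>
      (continuous_entry a b).comp hc
    exact (((hc' i i).add (hc' j j)).add (hc' i j)).add (hc' j i)
  have hcl2 : IsClosed (⋃ p : Fin d × Fin d, {X : Matrix (Fin d) (Fin d) ℝ | η2 ≤ |X p.1 p.2|}) :=
    isClosed_iUnion_of_finite fun p => isClosed_le continuous_const (continuous_entry p.1 p.2).abs
  have hcomp : IsCompact S := (compact_box η0).inter_right (hcl1.inter hcl2)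
  have hdetc : Continuous fun X : Matrix (Fin d) (Fin d) ℝ => (1 + X).det := by
    exact Continuous.matrix_det (continuous_const.add continuous_id)
  have hgt : ∀ X ∈ S, 1 < (1 + X).det := by
    rintro X ⟨h1, h2, h3⟩
    obtain ⟨k1, k2⟩ := hmin X h1 h2
    refine lt_of_le_of_ne k1 fun e => ?_
    have h4 := k2 e.symm
    simp only [Set.mem_iUnion] at h3
    obtain ⟨p, hp⟩ := h3
    rw [Set.mem_ofPred_eq, h4] at hp
    simp at hp
    linarith
  rcases S.eq_empty_or_nonempty with he | hne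
  · refine ⟨1, one_pos, fun X h1 h2 _ i j => ?_⟩
    by_contra hcon
    have : X ∈ S := ⟨h1, constraints h2, Set.mem_iUnion.mpr ⟨(i, j), not_lt.mp hcon⟩⟩
    rw [he] at this
    exact this
  · obtain ⟨X0, hX0, hm⟩ := hcomp.exists_isMinOn hne hdetc.continuousOn
    have h0 := hgt X0 hX0
    refine ⟨((1 + X0).det - 1) / 2, by linarith, fun X h1 h2 h3 i j => ?_⟩
    by_contra hcon
    have : X ∈ S := ⟨h1, constraints h2, Set.mem_iUnion.mpr ⟨(i, j), not_lt.mp hcon⟩⟩
    have h4 := hm this
    simp only [Set.mem_ofPred_eq] at h4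
    linarith

end Pool.Agent.Helper37.Lat
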