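import Pool.Agent.Helper37.Lat.L6

set_option autoImplicit false

/-! The core theorem: norms near the weighted tile norm have few minimal vectors. -/

namespace Pool.Agent.Helper37.Lat

open Finset Filter Topology
open scoped Matrix

variable {d : ℕ}

/-- weights -/
noncomputable def wt (δ : ℝ) (I : J d) : ℝ := if I.1.card ≤ 2 then 1 else 1 + δ

/-- the vectors `±1_I`, `|I| ≤ 2` -/
def Small (z : Fin d → ℤ) : Prop :=
  ∃ I : Finset (Fin d), I.Nonempty ∧ I.card ≤ 2 ∧ (z = zind I ∨ z = - zind I)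

lemma one_le_wt {δ : ℝ} (hδ : 0 ≤ δ) (I : J d) : 1 ≤ wt δ I := by
  unfold wt; split_ifs <;> linarith

lemma wt_le {δ : ℝ} (hδ : 0 ≤ δ) (I : J d) : wt δ I ≤ 1 + δ := by
  unfold wt; split_ifs <;> linarith

lemma NT_le_nm {δ : ℝ} (hδ : 0 ≤ δ) (x : Fin d → ℝ) : NT x ≤ nm (wt δ) x := by
  rw [NT_le_iff _ (nm_nonneg _ _)]
  intro I
  refine le_trans ?_ (le_nm (wt δ) x I)
  rw [abs_mul]
  have h1 := one_le_wt hδ I
  rw [abs_of_nonneg (by linarith : (0 : ℝ) ≤ wt δ I)]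
  have := abs_nonneg (f I x)
  nlinarith

lemma nm_le_NT {δ : ℝ} (hδ : 0 ≤ δ) (x : Fin d → ℝ) : nm (wt δ) x ≤ (1 + δ) * NT x := by
  rw [nm_le_iff _ _ (by have := NT_nonneg x; positivity)]
  intro I
  rw [abs_mul]
  have h1 := one_le_wt hδ I
  rw [abs_of_nonneg (by linarith : (0 : ℝ) ≤ wt δ I)]
  exact mul_le_mul (wt_le hδ I) (le_NT x I) (abs_nonneg _) (by linarith)

lemma q_le (I : Finset (Fin d)) : q I ≤ 2 * d * d := by
  rw [q_eq]
  have h1 := card_le_d I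
  have h2 : (0 : ℝ) ≤ I.card := by positivity
  nlinarith

/-- integrality -/
lemma B_int (z : Fin d → ℤ) (I : Finset (Fin d)) : ∃ m : ℤ, B (zr z) (ind I) = m :=
  ⟨2 * d * ∑ i ∈ I, z i - (∑ i, z i) * I.card, by rw [B_ind]; simp [zr]⟩

lemma q_int (I : Finset (Fin d)) : ∃ m : ℤ, q I = m :=
  ⟨I.card * (2 * d - I.card), by rw [q_eq]; simp⟩

lemma f_gap_above {z : Fin d → ℤ} {I : J d} (h : q I.1 < |B (zr z) (ind I.1)|) :
    1 + 1 / (2 * d * d) ≤ |f I (zr z)| := by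
  obtain ⟨m, hm⟩ := B_int z I.1
  obtain ⟨k, hk⟩ := q_int I.1
  have hq := q_pos I.2
  have hq2 := q_le I.1
  have h1 : q I.1 + 1 ≤ |B (zr z) (ind I.1)| := by
    rw [hm, hk, ← Int.cast_abs] at h ⊢
    have : k < |m| := by exact_mod_cast h
    have : k + 1 ≤ |m| := this
    exact_mod_cast this
  unfold f
  rw [abs_div, abs_of_pos hq, le_div_iff₀ hq]
  have h2 : (1 / (2 * d * d) : ℝ) * q I.1 ≤ 1 := by
    rw [div_mul_eq_mul_div, one_mul, div_le_one (lt_of_lt_of_le hq hq2)]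
    exact hq2
  linarith

lemma f_gap_below {I K : J d} (h : I ≠ K) : |f K (ind I.1)| ≤ 1 - 1 / (2 * d * d) := by
  have h0 : |B (ind I.1) (ind K.1)| < q K.1 := abs_B_ind_ind_lt I.2 K.2 (fun e => h (Subtype.ext e))
  rw [← zr_zind] at h0 ⊢
  obtain ⟨m, hm⟩ := B_int (zind I.1) K.1
  obtain ⟨k, hk⟩ := q_int K.1
  have hq := q_pos K.2
  have hq2 := q_le K.1
  have h1 : |B (zr (zind I.1)) (ind K.1)| + 1 ≤ q K.1 := by
    rw [hm, hk, ← Int.cast_abs] at h0 ⊢
    have : |m| < k := by exact_mod_cast h0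
    have : |m| + 1 ≤ k := this
    exact_mod_cast this
  unfold f
  rw [abs_div, abs_of_pos hq, div_le_iff₀ hq]
  have h2 : (1 / (2 * d * d) : ℝ) * q K.1 ≤ 1 := by
    rw [div_mul_eq_mul_div, one_mul, div_le_one (lt_of_lt_of_le hq hq2)]
    exact hq2
  linarith

lemma one_le_NT {z : Fin d → ℤ} (hz : z ≠ 0) : 1 ≤ NT (zr z) := by
  obtain ⟨I, hI, h1, _⟩ := exists_facet hz
  refine le_trans ?_ (le_NT _ ⟨I, hI⟩)
  unfold f
  have hq := q_pos hI
  rw [abs_div, abs_of_pos hq, le_div_iff₀ hq, one_mul]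
  exact h1

lemma nm_gap {δ : ℝ} (hδ : 0 ≤ δ) (hδ1 : δ ≤ 1 / (2 * d * d)) {z : Fin d → ℤ} (hz : z ≠ 0)
    (hs : ¬ Small z) : 1 + δ ≤ nm (wt δ) (zr z) := by
  obtain ⟨I, hI, h1, h2⟩ := exists_facet hz
  by_cases hc : z = zind I ∨ z = - zind I
  · have hcard : ¬ I.card ≤ 2 := fun h => hs ⟨I, hI, h, hc⟩
    refine le_trans ?_ (le_nm _ _ ⟨I, hI⟩)
    have hw : wt δ (⟨I, hI⟩ : J d) = 1 + δ := by
      unfold wt; rw [if_neg hcard]
    have hf : |f ⟨I, hI⟩ (zr z)| = 1 := by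
      rcases hc with hc | hc
      · rw [hc, zr_zind, f_self (⟨I, hI⟩ : J d)]; simp
      · rw [hc, zr_neg, zr_zind, f_neg, f_self (⟨I, hI⟩ : J d)]; simp
    rw [abs_mul, hf, hw, abs_of_nonneg (by linarith), mul_one]
  · push Not at hc
    have h3 := f_gap_above (I := ⟨I, hI⟩) (h2 hc.1 hc.2)
    have h4 := (le_NT (zr z) ⟨I, hI⟩).trans (NT_le_nm hδ (zr z))
    linarith

lemma mulVec_norm_le {X : Matrix (Fin d) (Fin d) ℝ} {η : ℝ} (hη : 0 ≤ η) (hX : ∀ i j, |X i j| ≤ η)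
    (y : Fin d → ℝ) : ‖X *ᵥ y‖ ≤ d * η * ‖y‖ := by
  rw [pi_norm_le_iff_of_nonneg (by positivity)]
  intro i
  rw [Real.norm_eq_abs, Matrix.mulVec, dotProduct]
  refine (Finset.abs_sum_le_sum_abs _ _).trans ?_
  calc ∑ j, |X i j * y j| ≤ ∑ _j : Fin d, η * ‖y‖ := by
        refine Finset.sum_le_sum fun j _ => ?_
        rw [abs_mul]
        exact mul_le_mul (hX i j) (norm_le_pi_norm y j) (abs_nonneg _) hη
    _ = d * η * ‖y‖ := by
        simp only [Finset.sum_const, Finset.card_univ, Fintype.card_fin, nsmul_eq_mul]; ring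

lemma nm_mulVec_le {δ : ℝ} (hδ : 0 ≤ δ) (hδ1 : δ ≤ 1) {X : Matrix (Fin d) (Fin d) ℝ} {η : ℝ}
    (hη : 0 ≤ η) (hX : ∀ i j, |X i j| ≤ η) (y : Fin d → ℝ) :
    nm (wt δ) (X *ᵥ y) ≤ 9 * d * η * nm (wt δ) y := by
  have h1 := nm_le_NT hδ (X *ᵥ y)
  have h2 := NT_le_norm (X *ᵥ y)
  have h3 := mulVec_norm_le hη hX y
  have h4 := norm_le_NT y
  have h5 := NT_le_nm hδ y
  have h6 := NT_nonneg (X *ᵥ y)
  calc nm (wt δ) (X *ᵥ y) ≤ (1 + δ) * NT (X *ᵥ y) := h1
    _ ≤ 2 * (3 * (d * η * ‖y‖)) := by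
        apply mul_le_mul
        · linarith
        · linarith
        · exact h6
        · norm_num
    _ ≤ 2 * (3 * (d * η * (3 / 2 * nm (wt δ) y))) := by
        have : ‖y‖ ≤ 3 / 2 * nm (wt δ) y := by linarith
        gcongr
    _ = 9 * d * η * nm (wt δ) y := by ring

lemma map_mulVec_zr (A : Matrix (Fin d) (Fin d) ℤ) (z : Fin d → ℤ) :
    A.map (Int.cast : ℤ → ℝ) *ᵥ zr z = zr (A *ᵥ z) := by
  funext i
  simp [Matrix.mulVec, dotProduct, zr]

theorem core (hd : 0 < d) : ∃ δ : ℝ, 0 < δ ∧ δ ≤ 1 ∧ ∃ ε : ℝ, 0 < ε ∧ ε ≤ 1 ∧ ∀ N : (Fin d → ℝ) → ℝ,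
    Continuous N → (∀ (c : ℝ) x, 0 < c → N (c • x) = c * N x) →
    (∀ x, N x ≤ (1 + ε) * nm (wt δ) x) → (∀ x, nm (wt δ) x ≤ (1 + ε) * N x) →
    ∃ V : Matrix (Fin d) (Fin d) ℝ, 0 < V.det ∧ (∀ z : Fin d → ℤ, z ≠ 0 → 1 ≤ N (V *ᵥ zr z)) ∧
      (∀ W : Matrix (Fin d) (Fin d) ℝ, W.det ≠ 0 →
        (∀ z : Fin d → ℤ, z ≠ 0 → 1 ≤ N (W *ᵥ zr z)) → V.det ≤ |W.det|) ∧
      ∀ r, (∀ z : Fin d → ℤ, z ≠ 0 → r ≤ N (V *ᵥ zr z)) → ∀ z : Fin d → ℤ, z ≠ 0 →
        N (V *ᵥ zr z) = r → Small z := by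
  have hd1 : (1 : ℝ) ≤ d := by exact_mod_cast hd
  have hd0 : (0 : ℝ) < d := by linarith
  obtain ⟨η0, hη0, hst2⟩ := stab2 hd
  obtain ⟨δ', hδ', hdet⟩ := det_first_order d (c := 1) one_pos
  set κ : ℝ := 1 / (2 * d * d) with hκ
  have hκ0 : 0 < κ := by positivity
  have hκ1 : κ ≤ 1 / 2 := by
    rw [hκ]; apply one_div_le_one_div_of_le (by norm_num); nlinarith
  -- the box size
  obtain ⟨η1, hη1, hη1a, hη1b, hη1c, hη1d⟩ : ∃ η1 : ℝ, 0 < η1 ∧ η1 ≤ η0 / 4 ∧
      η1 ≤ δ' ∧ (d + 1) * η1 ≤ 1 / 2 ∧ 9 * d * η1 ≤ κ / 12 := by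
    refine ⟨min (min (η0 / 4) δ') (min (1 / (2 * (d + 1))) (κ / (108 * d))), by positivity, ?_, ?_, ?_, ?_⟩
    · exact (min_le_left _ _).trans (min_le_left _ _)
    · exact (min_le_left _ _).trans (min_le_right _ _)
    · have h1 : min (min (η0 / 4) δ') (min (1 / (2 * (d + 1))) (κ / (108 * d))) ≤
        1 / (2 * ((d : ℝ) + 1)) := (min_le_right _ _).trans (min_le_left _ _)
      rw [le_div_iff₀ (by positivity)] at h1
      linarith
    · have h1 : min (min (η0 / 4) δ') (min (1 / (2 * (d + 1))) (κ / (108 * d))) ≤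
        κ / (108 * d) := (min_le_right _ _).trans (min_le_right _ _)
      rw [le_div_iff₀ (by positivity)] at h1
      linarith
  obtain ⟨ε1, hε1, hst⟩ := stability hd hη1
  -- δ
  obtain ⟨δ, hδ, hδa, hδb⟩ : ∃ δ : ℝ, 0 < δ ∧ δ ≤ κ / 2 ∧ δ ≤ ε1 / 2 :=
    ⟨min (κ / 2) (ε1 / 2), by positivity, min_le_left _ _, min_le_right _ _⟩
  have hδ1 : δ ≤ 1 := by linarith
  set η2 : ℝ := δ / (72 * d) with hη2
  have hη2p : 0 < η2 := by positivity
  have hη2e : 9 * d * η2 = δ / 8 := by rw [hη2]; field_simp; ring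
  obtain ⟨ε2, hε2, hst2⟩ := hst2 η2 hη2p
  -- ε
  have hlim : ∀ k : ℕ, Tendsto (fun ε : ℝ => (1 + ε) ^ k) (𝓝 0) (𝓝 1) := by
    intro k
    have hc : Continuous fun ε : ℝ => (1 + ε) ^ k := by fun_prop
    have := hc.tendsto 0
    simpa using this
  have hlim2 : Tendsto (fun ε : ℝ => (1 + ε) ^ 2 * (1 + δ / 8)) (𝓝 0) (𝓝 (1 * (1 + δ / 8))) :=
    (hlim 2).mul_const _
  have hev1 : ∀ᶠ ε : ℝ in 𝓝 0, (1 + ε) ^ d < 1 + ε1 :=
    (hlim d).eventually (gt_mem_nhds (by linarith))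
  have hev2 : ∀ᶠ ε : ℝ in 𝓝 0, (1 + ε) ^ (d + d) < 1 + ε2 :=
    (hlim (d + d)).eventually (gt_mem_nhds (by linarith))
  have hev3 : ∀ᶠ ε : ℝ in 𝓝 0, (1 + ε) ^ 2 * (1 + δ / 8) < 1 + 3 * δ / 4 :=
    hlim2.eventually (gt_mem_nhds (by linarith))
  have hev4 : ∀ᶠ ε : ℝ in 𝓝[>] 0, ε < min (min η1 1) (ε1 / 2) := by
    filter_upwards [Ioo_mem_nhdsGT (show (0 : ℝ) < min (min η1 1) (ε1 / 2) by positivity)] with ε hε
    exact hε.2
  obtain ⟨ε, ⟨⟨⟨hεa, hεb⟩, hεc⟩, hεd⟩, hε0⟩ :=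
    (((((hev1.and hev2).and hev3).filter_mono nhdsWithin_le_nhds).and hev4).and
      self_mem_nhdsWithin).exists
  have hε : 0 < ε := hε0
  have hεη : ε < η1 := hεd.trans_le ((min_le_left _ _).trans (min_le_left _ _))
  have hε1' : ε < 1 := hεd.trans_le ((min_le_left _ _).trans (min_le_right _ _))
  have hεε : ε < ε1 / 2 := hεd.trans_le (min_le_right _ _)
  refine ⟨δ, hδ, hδ1, ε, hε, hε1'.le, fun N hNc hNs hN1 hN2 => ?_⟩
  -- the compact set
  set D : Set (Matrix (Fin d) (Fin d) ℝ) := {V | ∀ i j, |V i j - (1 : Matrix (Fin d) (Fin d) ℝ) i j| ≤ η1} ∩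
    {V | ∀ z : Fin d → ℤ, z ≠ 0 → 1 ≤ N (V *ᵥ zr z)} with hD
  have hDc : IsCompact D := by
    have e : D = (fun X => 1 + X) '' ({X : Matrix (Fin d) (Fin d) ℝ | ∀ i j, |X i j| ≤ η1} ∩
      {X | ∀ z : Fin d → ℤ, z ≠ 0 → 1 ≤ N ((1 + X) *ᵥ zr z)}) := by
      ext V
      constructor
      · rintro ⟨h1, h2⟩
        refine ⟨V - 1, ⟨?_, ?_⟩, by simp⟩
        · intro i j; exact h1 i j
        · intro z hz
          have : 1 + (V - 1) = V := by simp
          rw [this]; exact h2 z hz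
      · rintro ⟨X, ⟨h1, h2⟩, rfl⟩
        refine ⟨?_, h2⟩
        intro i j
        simp only [Matrix.add_apply, add_sub_cancel_left]
        exact h1 i j
    rw [e]
    refine IsCompact.image ?_ (continuous_const.add continuous_id)
    refine (compact_box η1).inter_right ?_
    have e2 : {X : Matrix (Fin d) (Fin d) ℝ | ∀ z : Fin d → ℤ, z ≠ 0 → 1 ≤ N ((1 + X) *ᵥ zr z)} =
      ⋂ z : Fin d → ℤ, ⋂ _ : z ≠ 0, {X | 1 ≤ N ((1 + X) *ᵥ zr z)} := by
      ext X; simp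
    rw [e2]
    refine isClosed_iInter fun z => isClosed_iInter fun _ => isClosed_le continuous_const ?_
    refine hNc.comp ?_
    exact Continuous.matrix_mulVec (continuous_const.add continuous_id) continuous_const
  have hmem1 : (1 + ε) • (1 : Matrix (Fin d) (Fin d) ℝ) ∈ D := by
    refine ⟨?_, ?_⟩
    · intro i j
      simp only [Matrix.smul_apply, smul_eq_mul, Matrix.one_apply]
      split_ifs
      · rw [abs_le]; constructor <;> linarith
      · simp; linarith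
    · intro z hz
      rw [Matrix.smul_mulVec, Matrix.one_mulVec, hNs _ _ (by linarith)]
      have h1 := hN2 (zr z)
      have h2 := one_le_NT hz
      have h3 := NT_le_nm hδ.le (zr z)
      linarith
  have hdetc : Continuous fun X : Matrix (Fin d) (Fin d) ℝ => X.det := Continuous.matrix_det continuous_id
  obtain ⟨V, hVD, hVmin⟩ := hDc.exists_isMinOn ⟨_, hmem1⟩ hdetc.continuousOn
  have hVmin' : ∀ W ∈ D, V.det ≤ W.det := fun W hW => hVmin hW
  have hdetpos : ∀ W ∈ D, 0 < W.det := by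
    rintro W ⟨h1, _⟩
    have h2 := hdet (W - 1) η1 hη1.le hη1b (fun i j => h1 i j)
    have e : 1 + (W - 1) = W := by simp
    rw [e] at h2
    have h3 : |(W - 1).trace| ≤ d * η1 := by
      rw [Matrix.trace]
      refine (Finset.abs_sum_le_sum_abs _ _).trans ?_
      calc ∑ i, |Matrix.diag (W - 1) i| ≤ ∑ _i : Fin d, η1 := Finset.sum_le_sum fun i _ => (show |(W - 1) i i| ≤ η1 from h1 i i)
        _ = d * η1 := by simp
    have h4 := (abs_le.mp h2).1
    have h5 := (abs_le.mp h3).1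
    linarith
  have hVpos := hdetpos V hVD
  have hdet1 : ((1 + ε) • (1 : Matrix (Fin d) (Fin d) ℝ)).det = (1 + ε) ^ d := by
    rw [Matrix.det_smul, Matrix.det_one, mul_one, Fintype.card_fin]
  have hVle : V.det ≤ (1 + ε) ^ d := by
    rw [← hdet1]; exact hVmin' _ hmem1
  -- global minimality
  have hglob : ∀ W : Matrix (Fin d) (Fin d) ℝ, W.det ≠ 0 →
        (∀ z : Fin d → ℤ, z ≠ 0 → 1 ≤ N (W *ᵥ zr z)) → V.det ≤ |W.det| := by
    intro W hW0 hW
    rcases le_or_gt ((1 + ε) ^ d) |W.det| with h | h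
    · exact hVle.trans h
    · have hadm : Adm W (1 - ε1) := by
        intro z hz
        have h1 := hW z hz
        have h2 := hN1 (W *ᵥ zr z)
        have h3 := nm_le_NT hδ.le (W *ᵥ zr z)
        have h4 := NT_nonneg (W *ᵥ zr z)
        have h5 : 1 ≤ (1 + ε) * ((1 + δ) * NT (W *ᵥ zr z)) := by
          refine h1.trans (h2.trans ?_)
          exact mul_le_mul_of_nonneg_left h3 (by linarith)
        by_contra hcon
        push Not at hcon
        have hε1p : 0 < 1 - ε1 := by linarith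
        have h6 : (1 + ε) * (1 + δ) * (1 - ε1) < 1 := by
          have g1 : (1 + ε) * (1 + δ) ≤ (1 + ε1 / 2) * (1 + ε1 / 2) := by
            apply mul_le_mul <;> linarith
          have g2 : (1 + ε) * (1 + δ) * (1 - ε1) ≤ (1 + ε1 / 2) * (1 + ε1 / 2) * (1 - ε1) :=
            mul_le_mul_of_nonneg_right g1 hε1p.le
          have g3 : (1 + ε1 / 2) * (1 + ε1 / 2) * (1 - ε1) =
            1 - 3 / 4 * (ε1 * ε1) - 1 / 4 * (ε1 * ε1 * ε1) := by ring
          have g4 : 0 < ε1 * ε1 := by positivity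
          have g5 : 0 < ε1 * ε1 * ε1 := by positivity
          linarith
        have h7 : (1 + ε) * ((1 + δ) * NT (W *ᵥ zr z)) < 1 := by
          have : (1 + ε) * (1 + δ) * NT (W *ᵥ zr z) < (1 + ε) * (1 + δ) * (1 - ε1) := by
            apply mul_lt_mul_of_pos_left hcon
            positivity
          linarith
        linarith
      obtain ⟨A, hA1, hA2⟩ := hst W hW0 hadm (by linarith)
      have hWA : W * A.map (Int.cast : ℤ → ℝ) ∈ D := by
        refine ⟨fun i j => (hA2 i j).le, ?_⟩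
        intro z hz
        rw [← Matrix.mulVec_mulVec, map_mulVec_zr]
        apply hW
        intro h0
        apply hz
        apply Matrix.eq_zero_of_mulVec_eq_zero _ h0
        intro h1
        rw [h1] at hA1
        simp at hA1
      have h1 := hVmin' _ hWA
      refine h1.trans ?_
      rw [Matrix.det_mul]
      have h2 : |(A.map (Int.cast : ℤ → ℝ)).det| = 1 := by
        have : (A.map (Int.cast : ℤ → ℝ)).det = ((A.det : ℤ) : ℝ) := by rw [Int.cast_det]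
        rw [this, ← Int.cast_abs, hA1]; simp
      refine (le_abs_self _).trans ?_
      rw [abs_mul, h2, mul_one]
  -- closeness
  set X : Matrix (Fin d) (Fin d) ℝ := (1 + ε) • V - 1 with hX
  have hXV : 1 + X = (1 + ε) • V := by rw [hX]; simp
  have hX3 : ∀ i j, |X i j| ≤ 3 * η1 := by
    intro i j
    have h1 := hVD.1 i j
    have h2 : X i j = (1 + ε) * (V i j - (1 : Matrix (Fin d) (Fin d) ℝ) i j) +
        ε * (1 : Matrix (Fin d) (Fin d) ℝ) i j := by
      rw [hX]; simp only [Matrix.sub_apply, Matrix.smul_apply, smul_eq_mul]; ring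
    have h3 : |(1 : Matrix (Fin d) (Fin d) ℝ) i j| ≤ 1 := by
      rw [Matrix.one_apply]; split_ifs <;> simp
    rw [h2]
    refine (abs_add_le _ _).trans ?_
    rw [abs_mul, abs_mul, abs_of_pos hε, abs_of_pos (by linarith : (0 : ℝ) < 1 + ε)]
    have h4 : (1 + ε) * |V i j - (1 : Matrix (Fin d) (Fin d) ℝ) i j| ≤ 2 * η1 := by
      apply mul_le_mul _ h1 (abs_nonneg _) (by norm_num)
      linarith
    have h5 : ε * |(1 : Matrix (Fin d) (Fin d) ℝ) i j| ≤ ε * 1 :=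
      mul_le_mul_of_nonneg_left h3 hε.le
    linarith
  have hNX : ∀ z : Fin d → ℤ, N ((1 + X) *ᵥ zr z) = (1 + ε) * N (V *ᵥ zr z) := by
    intro z
    rw [hXV, Matrix.smul_mulVec, hNs _ _ (by linarith)]
  have hfac : ∀ I : J d, I.1.card ≤ 2 → 1 ≤ f I ((1 + X) *ᵥ ind I.1) := by
    intro I hI
    have hzne : zind I.1 ≠ 0 := by
      obtain ⟨i, hi⟩ := I.2
      intro h
      have := congrFun h i
      simp [zind, hi] at this
    have h1 : 1 ≤ nm (wt δ) ((1 + X) *ᵥ ind I.1) := by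
      have h2 := hNX (zind I.1)
      rw [zr_zind] at h2
      have h3 := hVD.2 (zind I.1) hzne
      rw [zr_zind] at h3
      have h4 := hN1 ((1 + X) *ᵥ ind I.1)
      rw [h2] at h4
      have h5 : N (V *ᵥ ind I.1) ≤ nm (wt δ) ((1 + X) *ᵥ ind I.1) :=
        le_of_mul_le_mul_left h4 (by linarith)
      linarith
    have hfX : ∀ K : J d, |f K (X *ᵥ ind I.1)| ≤ κ / 4 := by
      intro K
      have h2 := (le_NT (X *ᵥ ind I.1) K).trans (NT_le_nm hδ.le _)
      have h3 := nm_mulVec_le hδ.le hδ1 (by positivity) hX3 (ind I.1)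
      have h4 : nm (wt δ) (ind I.1) ≤ 1 := by
        rw [nm_le_iff _ _ (by norm_num)]
        intro L
        by_cases hL : I = L
        · subst hL
          rw [f_self, mul_one]
          unfold wt; rw [if_pos hI]; simp
        · have h5 := f_gap_below hL
          rw [← hκ] at h5
          have h6 := one_le_wt hδ.le L
          have h7 := wt_le hδ.le L
          rw [abs_mul, abs_of_nonneg (by linarith : (0 : ℝ) ≤ wt δ L)]
          have h8 : wt δ L * |f L (ind I.1)| ≤ (1 + δ) * (1 - κ) :=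
            mul_le_mul h7 h5 (abs_nonneg _) (by linarith)
          nlinarith
      have h5 := nm_nonneg (wt δ) (ind I.1)
      have h6 : 9 * d * (3 * η1) * nm (wt δ) (ind I.1) ≤ 9 * d * (3 * η1) * 1 :=
        mul_le_mul_of_nonneg_left h4 (by positivity)
      linarith
    have h6 : ∃ K : J d, 1 ≤ |wt δ K * f K ((1 + X) *ᵥ ind I.1)| := by
      by_contra hcon
      push Not at hcon
      have := (nm_lt_iff (wt δ) ((1 + X) *ᵥ ind I.1) one_pos).mpr hcon
      linarith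
    obtain ⟨K, hK⟩ := h6
    rw [Matrix.add_mulVec, Matrix.one_mulVec, f_add] at hK ⊢
    by_cases hIK : I = K
    · subst hIK
      have hw : wt δ I = 1 := by unfold wt; rw [if_pos hI]
      rw [hw, one_mul, f_self] at hK
      rw [f_self]
      have h7 := (abs_le.mp (hfX I)).1
      rw [abs_of_nonneg (by linarith)] at hK
      exact hK
    · exfalso
      have h7 := f_gap_below hIK
      rw [← hκ] at h7
      have h8 := hfX K
      have h9 := one_le_wt hδ.le K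
      have h10 := wt_le hδ.le K
      rw [abs_mul, abs_of_nonneg (by linarith : (0 : ℝ) ≤ wt δ K)] at hK
      have h11 : |f K (ind I.1) + f K (X *ᵥ ind I.1)| ≤ 1 - κ + κ / 4 :=
        (abs_add_le _ _).trans (add_le_add h7 h8)
      have h12 : wt δ K * |f K (ind I.1) + f K (X *ᵥ ind I.1)| ≤ (1 + δ) * (1 - κ + κ / 4) :=
        mul_le_mul h10 h11 (abs_nonneg _) (by linarith)
      nlinarith
  have hdetX : (1 + X).det ≤ 1 + ε2 := by
    rw [hXV, Matrix.det_smul, Fintype.card_fin]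
    have h1 : (1 + ε) ^ d * V.det ≤ (1 + ε) ^ d * (1 + ε) ^ d :=
      mul_le_mul_of_nonneg_left hVle (by positivity)
    rw [← pow_add] at h1
    linarith
  have hXη2 : ∀ i j, |X i j| ≤ η2 := fun i j =>
    (hst2 X (fun i j => (hX3 i j).trans (by linarith)) hfac hdetX i j).le
  refine ⟨V, hVpos, hVD.2, hglob, fun r hr z hz hzr => ?_⟩
  by_contra hsm
  have hnmX : ∀ y, nm (wt δ) (X *ᵥ y) ≤ δ / 8 * nm (wt δ) y := by
    intro y
    have := nm_mulVec_le hδ.le hδ1 hη2p.le hXη2 y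
    rwa [hη2e] at this
  -- lower bound
  have l1 : (1 - δ / 8) * (1 + δ) ≤ nm (wt δ) ((1 + X) *ᵥ zr z) := by
    have h1 := nm_gap hδ.le (by linarith) hz hsm
    have h2 := hnmX (zr z)
    have h3 : nm (wt δ) (zr z) ≤ nm (wt δ) ((1 + X) *ᵥ zr z) + nm (wt δ) (X *ᵥ zr z) := by
      have e : zr z = (1 + X) *ᵥ zr z - X *ᵥ zr z := by
        rw [Matrix.add_mulVec, Matrix.one_mulVec]; abel
      have := nm_sub_le (wt δ) ((1 + X) *ᵥ zr z) (X *ᵥ zr z)
      rwa [← e] at this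
    have h4 : (1 - δ / 8) * (1 + δ) ≤ (1 - δ / 8) * nm (wt δ) (zr z) :=
      mul_le_mul_of_nonneg_left h1 (by linarith)
    linarith
  have l2 := hN2 ((1 + X) *ᵥ zr z)
  rw [hNX, hzr] at l2
  -- upper bound
  set I0 : J d := ⟨{⟨0, hd⟩}, Finset.singleton_nonempty _⟩ with hI0
  have hz0 : zind I0.1 ≠ 0 := by
    intro h
    have := congrFun h ⟨0, hd⟩
    simp [zind, hI0] at this
  have u1 := hr (zind I0.1) hz0
  have u2 := hN1 ((1 + X) *ᵥ zr (zind I0.1))
  rw [hNX] at u2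
  have u3 : nm (wt δ) ((1 + X) *ᵥ zr (zind I0.1)) ≤ (1 + δ / 8) := by
    rw [Matrix.add_mulVec, Matrix.one_mulVec]
    have h1 := nm_add_le (wt δ) (zr (zind I0.1)) (X *ᵥ zr (zind I0.1))
    have h2 := hnmX (zr (zind I0.1))
    have h3 : nm (wt δ) (zr (zind I0.1)) ≤ 1 := by
      rw [zr_zind, nm_le_iff _ _ (by norm_num)]
      intro L
      by_cases hL : I0 = L
      · rw [← hL, f_self, mul_one]
        unfold wt; rw [if_pos (by simp [hI0])]; simp
      · have h5 := f_gap_below hL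
        rw [← hκ] at h5
        have h6 := one_le_wt hδ.le L
        have h7 := wt_le hδ.le L
        rw [abs_mul, abs_of_nonneg (by linarith : (0 : ℝ) ≤ wt δ L)]
        have h8 : wt δ L * |f L (ind I0.1)| ≤ (1 + δ) * (1 - κ) :=
          mul_le_mul h7 h5 (abs_nonneg _) (by linarith)
        nlinarith
    nlinarith
  -- combine
  have c1 : (1 + ε) * r ≤ (1 + ε) * (1 + δ / 8) := by
    have h1 : (1 + ε) * r ≤ (1 + ε) * N (V *ᵥ zr (zind I0.1)) :=
      mul_le_mul_of_nonneg_left u1 (by linarith)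
    have h2 : (1 + ε) * nm (wt δ) ((1 + X) *ᵥ zr (zind I0.1)) ≤ (1 + ε) * (1 + δ / 8) :=
      mul_le_mul_of_nonneg_left u3 (by linarith)
    linarith
  have c2 : (1 + ε) * ((1 + ε) * r) ≤ (1 + ε) * ((1 + ε) * (1 + δ / 8)) :=
    mul_le_mul_of_nonneg_left c1 (by linarith)
  have c3 : (1 + ε) * ((1 + ε) * (1 + δ / 8)) = (1 + ε) ^ 2 * (1 + δ / 8) := by ring
  have c4 : 1 + 3 * δ / 4 ≤ (1 - δ / 8) * (1 + δ) := by nlinarith
  linarith

end Pool.Agent.Helper37.Lat
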