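import Pool.Agent.Helper37.Lat.L7

set_option autoImplicit false

/-! The space of convex bodies is Baire; gauges of nearby bodies. -/

namespace Pool.Agent.Helper37.Lat

open Filter Topology TopologicalSpace Metric
open scoped InnerProductSpace

section E

variable {E : Type*} [NormedAddCommGroup E] [InnerProductSpace ℝ E] [FiniteDimensional ℝ E]

/-- symmetric convex bodies -/
def Body (K : NonemptyCompacts E) : Prop :=
  Convex ℝ (K : Set E) ∧ (interior (K : Set E)).Nonempty ∧ ∀ x ∈ (K : Set E), -x ∈ (K : Set E)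

omit [FiniteDimensional ℝ E] in
lemma near {K K' : NonemptyCompacts E} {ε : ℝ} (h : dist K K' < ε) {x : E} (hx : x ∈ (K : Set E)) :
    ∃ x' ∈ (K' : Set E), dist x x' < ε := by
  rw [NonemptyCompacts.dist_eq] at h
  exact exists_dist_lt_of_hausdorffDist_lt hx h
    (hausdorffEDist_ne_top_of_nonempty_of_bounded K.nonempty K'.nonempty K.isCompact.isBounded
      K'.isCompact.isBounded)

lemma ball_subset_of_near {K K' : NonemptyCompacts E} {r ρ : ℝ} (hK : Convex ℝ (K : Set E))
    (hr : closedBall (0 : E) r ⊆ (K' : Set E)) (h : dist K' K < ρ) (hρ : ρ ≤ r) :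
    closedBall (0 : E) (r - ρ) ⊆ (K : Set E) := by
  intro y hy
  rw [mem_closedBall, dist_zero_right] at hy
  by_contra hyK
  obtain ⟨g, u, h1, h2⟩ := geometric_hahn_banach_closed_point hK K.isCompact.isClosed hyK
  set w : E := (InnerProductSpace.toDual ℝ E).symm g with hw
  have hg : ∀ x, g x = ⟪w, x⟫_ℝ := fun x => by
    rw [hw, InnerProductSpace.toDual_symm_apply]
  have hρ0 : 0 < ρ := lt_of_le_of_lt dist_nonneg h
  have hr0 : 0 < r := hρ0.trans_le hρ
  have hw0 : w ≠ 0 := by
    intro h0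
    obtain ⟨k, hk⟩ := K.nonempty
    have h3 := h1 k hk
    rw [hg, h0, inner_zero_left] at h3
    rw [hg, h0, inner_zero_left] at h2
    linarith
  have hwn : 0 < ‖w‖ := norm_pos_iff.mpr hw0
  have hv : (r / ‖w‖) • w ∈ closedBall (0 : E) r := by
    rw [mem_closedBall, dist_zero_right, norm_smul, Real.norm_eq_abs, abs_of_pos (by positivity)]
    rw [div_mul_cancel₀ _ hwn.ne']
  obtain ⟨k, hk, hvk⟩ := near h (hr hv)
  have h3 : g ((r / ‖w‖) • w) = r * ‖w‖ := by
    rw [hg, inner_smul_right, real_inner_self_eq_norm_sq]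
    field_simp
  have h4 : g ((r / ‖w‖) • w) - g k ≤ ‖w‖ * ρ := by
    rw [hg, hg, ← inner_sub_right]
    refine (real_inner_le_norm _ _).trans ?_
    rw [dist_eq_norm] at hvk
    exact mul_le_mul_of_nonneg_left hvk.le hwn.le
  have h5 : g y ≤ ‖w‖ * (r - ρ) := by
    rw [hg]
    exact (real_inner_le_norm _ _).trans (mul_le_mul_of_nonneg_left hy hwn.le)
  have h6 := h1 k hk
  nlinarith

omit [FiniteDimensional ℝ E] in
lemma mem_of_approx {K : NonemptyCompacts E} {x : E} (h : ∀ ε : ℝ, 0 < ε → ∃ k ∈ (K : Set E), dist x k < ε) :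
    x ∈ (K : Set E) := by
  have hcl : IsClosed (K : Set E) := K.isCompact.isClosed
  rw [← hcl.closure_eq, Metric.mem_closure_iff]
  exact h

omit [FiniteDimensional ℝ E] in
lemma isClosed_conv : IsClosed {K : NonemptyCompacts E | Convex ℝ (K : Set E) ∧
    ∀ x ∈ (K : Set E), -x ∈ (K : Set E)} := by
  rw [← closure_subset_iff_isClosed]
  intro K hK
  rw [Metric.mem_closure_iff] at hK
  refine ⟨?_, ?_⟩
  · rw [convex_iff_forall_pos]
    intro x hx y hy a b ha hb hab
    apply mem_of_approx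
    intro ε hε
    obtain ⟨K', ⟨hc, _⟩, hd⟩ := hK (ε / 2) (by positivity)
    obtain ⟨x', hx', hxx⟩ := near hd hx
    obtain ⟨y', hy', hyy⟩ := near hd hy
    have hm : a • x' + b • y' ∈ (K' : Set E) := hc hx' hy' ha.le hb.le hab
    rw [dist_comm] at hd
    obtain ⟨k, hk, hkk⟩ := near hd hm
    refine ⟨k, hk, ?_⟩
    have h1 : dist (a • x + b • y) (a • x' + b • y') ≤ ε / 2 := by
      rw [dist_eq_norm] at hxx hyy ⊢
      have e : a • x + b • y - (a • x' + b • y') = a • (x - x') + b • (y - y') := by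
        rw [smul_sub, smul_sub]; abel
      rw [e]
      refine (norm_add_le _ _).trans ?_
      rw [norm_smul, norm_smul, Real.norm_eq_abs, Real.norm_eq_abs, abs_of_pos ha, abs_of_pos hb]
      have h2 : a * ‖x - x'‖ ≤ a * (ε / 2) := mul_le_mul_of_nonneg_left hxx.le ha.le
      have h3 : b * ‖y - y'‖ ≤ b * (ε / 2) := mul_le_mul_of_nonneg_left hyy.le hb.le
      have h4 : a * (ε / 2) + b * (ε / 2) = ε / 2 := by rw [← add_mul, hab, one_mul]
      linarith
    have h5 := dist_triangle (a • x + b • y) (a • x' + b • y') k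
    linarith
  · intro x hx
    apply mem_of_approx
    intro ε hε
    obtain ⟨K', ⟨_, hs⟩, hd⟩ := hK (ε / 2) (by positivity)
    obtain ⟨x', hx', hxx⟩ := near hd hx
    rw [dist_comm] at hd
    obtain ⟨k, hk, hkk⟩ := near hd (hs x' hx')
    refine ⟨k, hk, ?_⟩
    have h1 : dist (-x) (-x') < ε / 2 := by rwa [dist_neg_neg]
    have h5 := dist_triangle (-x) (-x') k
    linarith

omit [FiniteDimensional ℝ E] in
lemma exists_ball {K : NonemptyCompacts E} (hK : Body K) :
    ∃ r : ℝ, 0 < r ∧ closedBall (0 : E) r ⊆ (K : Set E) := by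
  obtain ⟨hc, ⟨x0, hx0⟩, hs⟩ := hK
  rw [mem_interior_iff_mem_nhds, Metric.mem_nhds_iff] at hx0
  obtain ⟨s, hs0, hsub⟩ := hx0
  refine ⟨s / 2, by positivity, fun v hv => ?_⟩
  rw [mem_closedBall, dist_zero_right] at hv
  have h1 : x0 + v ∈ (K : Set E) := hsub (by
    rw [mem_ball, dist_eq_norm, add_sub_cancel_left]; linarith)
  have h2 : x0 - v ∈ (K : Set E) := hsub (by
    rw [mem_ball, dist_eq_norm, sub_sub_cancel_left, norm_neg]; linarith)
  have h3 := hs _ h2
  have h4 : (1 / 2 : ℝ) • (x0 + v) + (1 / 2 : ℝ) • (-(x0 - v)) ∈ (K : Set E) :=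
    hc h1 h3 (by norm_num) (by norm_num) (by norm_num)
  have e : (1 / 2 : ℝ) • (x0 + v) + (1 / 2 : ℝ) • (-(x0 - v)) = v := by
    rw [← smul_add]
    have : x0 + v + -(x0 - v) = (2 : ℝ) • v := by rw [two_smul]; abel
    rw [this, smul_smul]; norm_num
  rwa [e] at h4

theorem baireBody : BaireSpace {K : NonemptyCompacts E // Body K} := by
  haveI : ProperSpace E := FiniteDimensional.proper_real E
  have hl : IsLocallyClosed {K : NonemptyCompacts E | Body K} := by
    refine ⟨⋃ K0 : {K : NonemptyCompacts E // Body K}, ball K0.1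
      ((exists_ball K0.2).choose / 2), {K : NonemptyCompacts E | Convex ℝ (K : Set E) ∧
      ∀ x ∈ (K : Set E), -x ∈ (K : Set E)}, isOpen_iUnion fun _ => isOpen_ball, isClosed_conv, ?_⟩
    ext K
    constructor
    · intro hK
      have hK' : Body K := hK
      refine ⟨?_, hK'.1, hK'.2.2⟩
      rw [Set.mem_iUnion]
      exact ⟨⟨K, hK'⟩, mem_ball_self (half_pos (exists_ball hK').choose_spec.1)⟩
    · rintro ⟨hK, hc, hs⟩
      rw [Set.mem_iUnion] at hK
      obtain ⟨K0, hK0⟩ := hK
      refine ⟨hc, ?_, hs⟩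
      obtain ⟨hr, hsub⟩ := (exists_ball K0.2).choose_spec
      set r := (exists_ball K0.2).choose with hrdef
      rw [mem_ball, dist_comm] at hK0
      have h1 := ball_subset_of_near hc hsub hK0 (by linarith)
      refine ⟨0, ?_⟩
      rw [mem_interior_iff_mem_nhds]
      refine Filter.mem_of_superset (closedBall_mem_nhds (0 : E) (ε := r - r / 2) (by linarith)) h1
  haveI : LocallyCompactSpace {K : NonemptyCompacts E // Body K} := hl.locallyCompactSpace
  exact BaireSpace.of_t2Space_locallyCompactSpace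

end E

end Pool.Agent.Helper37.Lat
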