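import Pool.Agent.Helper37.Lat.L8

set_option autoImplicit false

/-! Bodies near the weighted tile: densest lattices have few minimal vectors. -/

namespace Pool.Agent.Helper37.Lat

open Filter Topology TopologicalSpace Metric Module
open scoped InnerProductSpace Matrix

variable {d : ℕ}

/-- Euclidean space -/
abbrev Eu (d : ℕ) := EuclideanSpace ℝ (Fin d)

/-- the weighted tile -/
noncomputable def C0 (d : ℕ) (δ : ℝ) (hδ : 0 ≤ δ) : NonemptyCompacts (Eu d) where
  carrier := (fun y : Fin d → ℝ => (WithLp.toLp 2 y : Eu d)) '' {y | nm (wt δ) y ≤ 1}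
  isCompact' := by
    refine IsCompact.image ?_ (PiLp.continuous_toLp 2 _)
    refine Metric.isCompact_of_isClosed_isBounded
      (isClosed_le (continuous_nm _) continuous_const) ?_
    refine (Metric.isBounded_closedBall (x := (0 : Fin d → ℝ)) (r := 3 / 2)).subset ?_
    intro y hy
    rw [mem_closedBall, dist_zero_right]
    have h1 := norm_le_NT y
    have h2 := NT_le_nm hδ y
    have h3 : nm (wt δ) y ≤ 1 := hy
    linarith
  nonempty' := ⟨0, 0, by simp [nm_zero], by simp⟩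

lemma mem_C0 {δ : ℝ} (hδ : 0 ≤ δ) (x : Eu d) : x ∈ (C0 d δ hδ : Set (Eu d)) ↔ nm (wt δ) x.ofLp ≤ 1 := by
  constructor
  · rintro ⟨y, hy, rfl⟩
    exact hy
  · intro h
    exact ⟨x.ofLp, h, by simp⟩

lemma nm_le_norm {δ : ℝ} (hδ : 0 ≤ δ) (hδ1 : δ ≤ 1) (x : Eu d) : nm (wt δ) x.ofLp ≤ 6 * ‖x‖ := by
  have h1 := nm_le_NT hδ x.ofLp
  have h2 := NT_le_norm x.ofLp
  have h3 : ‖x.ofLp‖ ≤ ‖x‖ := by
    rw [pi_norm_le_iff_of_nonneg (norm_nonneg _)]
    intro i
    exact PiLp.norm_apply_le x i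
  have h4 := NT_nonneg x.ofLp
  have h5 : (1 + δ) * NT x.ofLp ≤ 2 * NT x.ofLp := mul_le_mul_of_nonneg_right (by linarith) h4
  linarith

lemma ball_C0 {δ : ℝ} (hδ : 0 ≤ δ) (hδ1 : δ ≤ 1) :
    closedBall (0 : Eu d) (1 / 6) ⊆ (C0 d δ hδ : Set (Eu d)) := by
  intro x hx
  rw [mem_closedBall, dist_zero_right] at hx
  rw [mem_C0]
  have := nm_le_norm hδ hδ1 x
  linarith

lemma body_C0 {δ : ℝ} (hδ : 0 ≤ δ) (hδ1 : δ ≤ 1) : Body (C0 d δ hδ) := by
  refine ⟨?_, ?_, ?_⟩
  · intro x hx y hy a b ha hb hab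
    rw [mem_C0] at hx hy ⊢
    have e : (a • x + b • y).ofLp = a • x.ofLp + b • y.ofLp := rfl
    rw [e]
    refine (nm_add_le _ _ _).trans ?_
    rw [nm_smul, nm_smul, abs_of_nonneg ha, abs_of_nonneg hb]
    have h1 := mul_le_mul_of_nonneg_left hx ha
    have h2 := mul_le_mul_of_nonneg_left hy hb
    linarith
  · refine ⟨0, ?_⟩
    rw [mem_interior_iff_mem_nhds]
    exact Filter.mem_of_superset (closedBall_mem_nhds (0 : Eu d) (by norm_num)) (ball_C0 hδ hδ1)
  · intro x hx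
    rw [mem_C0] at hx ⊢
    have e : (-x).ofLp = - x.ofLp := rfl
    rw [e, nm_neg]
    exact hx

lemma sandwich {δ ε : ℝ} (hδ : 0 ≤ δ) (hδ1 : δ ≤ 1) (hε : 0 < ε) (hε1 : ε ≤ 1)
    {K : NonemptyCompacts (Eu d)} (hK : Body K) (hd : dist (C0 d δ hδ) K < ε / 12) :
    (∀ x : Fin d → ℝ, gauge (K : Set (Eu d)) (WithLp.toLp 2 x) ≤ (1 + ε) * nm (wt δ) x) ∧
    (∀ x : Fin d → ℝ, nm (wt δ) x ≤ (1 + ε) * gauge (K : Set (Eu d)) (WithLp.toLp 2 x)) := by
  have hball : closedBall (0 : Eu d) (1 / 12) ⊆ (K : Set (Eu d)) := by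
    have h1 := ball_subset_of_near hK.1 (ball_C0 hδ hδ1) hd (by linarith)
    refine (closedBall_subset_closedBall ?_).trans h1
    linarith
  have hnhds : (K : Set (Eu d)) ∈ 𝓝 (0 : Eu d) :=
    Filter.mem_of_superset (closedBall_mem_nhds (0 : Eu d) (by norm_num)) hball
  have habs : Absorbent ℝ (K : Set (Eu d)) := absorbent_nhds_zero hnhds
  have key1 : ∀ x : Fin d → ℝ, nm (wt δ) x ≤ 1 →
      gauge (K : Set (Eu d)) (WithLp.toLp 2 x) ≤ 1 + ε := by
    intro x hx
    obtain ⟨k, hk, hxk⟩ := near hd (x := WithLp.toLp 2 x) ((mem_C0 hδ _).mpr hx)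
    have h1 := gauge_add_le hK.1 habs k (WithLp.toLp 2 x - k)
    rw [add_sub_cancel] at h1
    have h2 := gauge_le_one_of_mem hk
    have h3 := mul_gauge_le_norm (x := WithLp.toLp 2 x - k) (ball_subset_closedBall.trans hball)
    rw [dist_eq_norm] at hxk
    linarith
  have key2 : ∀ k ∈ (K : Set (Eu d)), nm (wt δ) k.ofLp ≤ 1 + ε := by
    intro k hk
    have hd' := hd
    rw [dist_comm] at hd'
    obtain ⟨c, hc, hkc⟩ := near hd' hk
    rw [mem_C0] at hc
    have e : k.ofLp = c.ofLp + (k - c).ofLp := by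
      have : (k - c).ofLp = k.ofLp - c.ofLp := rfl
      rw [this]; abel
    rw [e]
    refine (nm_add_le _ _ _).trans ?_
    have h1 := nm_le_norm hδ hδ1 (k - c)
    rw [dist_eq_norm] at hkc
    linarith
  refine ⟨fun x => ?_, fun x => ?_⟩
  · rcases eq_or_lt_of_le (nm_nonneg (wt δ) x) with h | h
    · have h1 := NT_le_nm hδ x
      rw [← h] at h1
      have h2 := eq_zero_of_NT_le_zero h1
      rw [← h, h2]
      simp
    · have h1 := key1 ((nm (wt δ) x)⁻¹ • x) (by
        rw [nm_smul, abs_of_pos (inv_pos.mpr h), inv_mul_cancel₀ h.ne'])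
      have e : (WithLp.toLp 2 x : Eu d) = nm (wt δ) x • WithLp.toLp 2 ((nm (wt δ) x)⁻¹ • x) := by
        rw [← WithLp.toLp_smul, smul_smul, mul_inv_cancel₀ h.ne', one_smul]
      rw [e, gauge_smul_of_nonneg h.le, smul_eq_mul, mul_comm]
      exact mul_le_mul_of_nonneg_right h1 h.le
  · by_contra hcon
    push Not at hcon
    have hε' : 0 < 1 + ε := by linarith
    have h1 : gauge (K : Set (Eu d)) (WithLp.toLp 2 x) < nm (wt δ) x / (1 + ε) := by
      rw [lt_div_iff₀ hε', mul_comm]; exact hcon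
    obtain ⟨b, hb0, hb, k, hk, hbk⟩ := exists_lt_of_gauge_lt habs h1
    have h2 := key2 k hk
    have e : x = b • k.ofLp := by
      have : (b • k).ofLp = b • k.ofLp := rfl
      rw [← this]
      simp only at hbk
      rw [hbk]
    have h3 : nm (wt δ) x = b * nm (wt δ) k.ofLp := by
      conv_lhs => rw [e]
      rw [nm_smul, abs_of_pos hb0]
    rw [lt_div_iff₀ hε'] at hb
    have h4 := mul_le_mul_of_nonneg_left h2 hb0.le
    linarith

/-- the lattice of a basis -/
def Lam (b : Basis (Fin d) ℝ (Eu d)) : Set (Eu d) := (Submodule.span ℤ (Set.range ⇑b) : Set (Eu d))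

/-- length of the shortest vectors -/
noncomputable def lamf (K : Set (Eu d)) (b : Basis (Fin d) ℝ (Eu d)) : ℝ :=
  sInf (gauge K '' (Lam b \ {0}))

/-- (normalised) density -/
noncomputable def rho (K : Set (Eu d)) (b : Basis (Fin d) ℝ (Eu d)) : ℝ :=
  lamf K b ^ d / |(EuclideanSpace.basisFun (Fin d) ℝ).toBasis.det ⇑b|

/-- matrix of a basis -/
noncomputable def mat (b : Basis (Fin d) ℝ (Eu d)) : Matrix (Fin d) (Fin d) ℝ := Matrix.of fun i j => (b j).ofLp i

lemma det_eq_mat (b : Basis (Fin d) ℝ (Eu d)) :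
    (EuclideanSpace.basisFun (Fin d) ℝ).toBasis.det ⇑b = (mat b).det := by
  rw [Basis.det_apply]
  congr 1

lemma det_mat_ne_zero (b : Basis (Fin d) ℝ (Eu d)) : (mat b).det ≠ 0 := by
  rw [← det_eq_mat]
  exact (Basis.isUnit_det _ b).ne_zero

lemma mem_Lam (b : Basis (Fin d) ℝ (Eu d)) (x : Eu d) :
    x ∈ Lam b ↔ ∃ z : Fin d → ℤ, x = WithLp.toLp 2 (mat b *ᵥ zr z) := by
  unfold Lam
  rw [SetLike.mem_coe, Submodule.mem_span_range_iff_exists_fun]
  have key : ∀ z : Fin d → ℤ, ∑ i, z i • b i = WithLp.toLp 2 (mat b *ᵥ zr z) := by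
    intro z
    ext i
    simp [Matrix.mulVec, dotProduct, mat, zr, mul_comm]
  constructor
  · rintro ⟨c, rfl⟩; exact ⟨c, key c⟩
  · rintro ⟨z, rfl⟩; exact ⟨z, key z⟩

lemma toLp_mulVec_eq_zero {V : Matrix (Fin d) (Fin d) ℝ} (hV : V.det ≠ 0) (z : Fin d → ℤ) :
    (WithLp.toLp 2 (V *ᵥ zr z) : Eu d) = 0 ↔ z = 0 := by
  rw [WithLp.toLp_eq_zero]
  constructor
  · intro h
    have h1 := Matrix.eq_zero_of_mulVec_eq_zero hV h
    rw [← zr_zero] at h1
    exact zr_injective h1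
  · rintro rfl
    rw [zr_zero, Matrix.mulVec_zero]

lemma lam_set (K : Set (Eu d)) (b : Basis (Fin d) ℝ (Eu d)) : gauge K '' (Lam b \ {0}) =
    (fun z : Fin d → ℤ => gauge K (WithLp.toLp 2 (mat b *ᵥ zr z))) '' {z | z ≠ 0} := by
  ext r
  constructor
  · rintro ⟨x, ⟨hx, hx0⟩, rfl⟩
    obtain ⟨z, rfl⟩ := (mem_Lam b x).mp hx
    refine ⟨z, ?_, rfl⟩
    intro hz
    exact hx0 ((toLp_mulVec_eq_zero (det_mat_ne_zero b) z).mpr hz)
  · rintro ⟨z, hz, rfl⟩
    refine ⟨_, ⟨(mem_Lam b _).mpr ⟨z, rfl⟩, ?_⟩, rfl⟩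
    intro h
    exact hz ((toLp_mulVec_eq_zero (det_mat_ne_zero b) z).mp h)

lemma exists_basis {V : Matrix (Fin d) (Fin d) ℝ} (hV : V.det ≠ 0) :
    ∃ b : Basis (Fin d) ℝ (Eu d), mat b = V := by
  set v : Fin d → Eu d := fun j => WithLp.toLp 2 (fun i => V i j) with hv
  have h1 : IsUnit ((EuclideanSpace.basisFun (Fin d) ℝ).toBasis.det v) := by
    rw [Basis.det_apply]
    have : (EuclideanSpace.basisFun (Fin d) ℝ).toBasis.toMatrix v = V := by
      ext i j
      simp [Basis.toMatrix_apply, hv]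
    rw [this]
    exact isUnit_iff_ne_zero.mpr hV
  obtain ⟨h2, h3⟩ := (Module.Basis.is_basis_iff_det (EuclideanSpace.basisFun (Fin d) ℝ).toBasis).mpr h1
  refine ⟨Basis.mk h2 h3.ge, ?_⟩
  ext i j
  simp [mat, hv]

lemma small_finite : {z : Fin d → ℤ | Small z}.Finite ∧ {z : Fin d → ℤ | Small z}.ncard ≤ d * (d + 1) := by
  classical
  set T : Finset (Finset (Fin d)) := Finset.powersetCard 1 Finset.univ ∪ Finset.powersetCard 2 Finset.univ with hT
  set F : Finset (Fin d → ℤ) := (T ×ˢ (Finset.univ : Finset Bool)).image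
    (fun p => if p.2 then zind p.1 else - zind p.1) with hF
  have hsub : {z : Fin d → ℤ | Small z} ⊆ ↑F := by
    rintro z ⟨I, hI, hc, hz⟩
    have hIT : I ∈ T := by
      rw [hT, Finset.mem_union, Finset.mem_powersetCard, Finset.mem_powersetCard]
      have := hI.card_pos
      have h1 : I.card = 1 ∨ I.card = 2 := by omega
      rcases h1 with h1 | h1
      · left; exact ⟨Finset.subset_univ _, h1⟩
      · right; exact ⟨Finset.subset_univ _, h1⟩
    rw [hF, Finset.mem_coe, Finset.mem_image]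
    rcases hz with hz | hz
    · exact ⟨(I, true), by simp [hIT], by simp [hz]⟩
    · exact ⟨(I, false), by simp [hIT], by simp [hz]⟩
  refine ⟨F.finite_toSet.subset hsub, ?_⟩
  have h1 := Set.ncard_le_ncard hsub F.finite_toSet
  rw [Set.ncard_coe_finset] at h1
  refine h1.trans ?_
  have h2 : F.card ≤ (T ×ˢ (Finset.univ : Finset Bool)).card := Finset.card_image_le
  refine h2.trans ?_
  rw [Finset.card_product]
  have h3 : T.card ≤ d + d.choose 2 := by
    refine (Finset.card_union_le _ _).trans ?_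
    rw [Finset.card_powersetCard, Finset.card_powersetCard]
    simp
  have h4 : 2 * d.choose 2 = d * (d - 1) := by
    rw [Nat.choose_two_right]
    exact Nat.mul_div_cancel' (Nat.even_mul_pred_self d).two_dvd
  have h5 : (Finset.univ : Finset Bool).card = 2 := by simp
  rw [h5]
  rcases Nat.eq_zero_or_pos d with h | h
  · subst h; simp at h3; simp [h3]
  · have h6 : d * (d - 1) + 2 * d = d * (d + 1) := by
      obtain ⟨k, rfl⟩ := Nat.exists_eq_add_of_le' h
      simp; ring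
    nlinarith

theorem few_minimal (hd : 2 ≤ d) : ∃ U : Set {K : NonemptyCompacts (Eu d) // Body K},
    IsOpen U ∧ U.Nonempty ∧ ∀ K ∈ U, ∃ b : Basis (Fin d) ℝ (Eu d),
      (∀ b', rho (K.1 : Set (Eu d)) b' ≤ rho (K.1 : Set (Eu d)) b) ∧
      {l | l ∈ Lam b ∧ l ≠ 0 ∧ gauge (K.1 : Set (Eu d)) l = lamf (K.1 : Set (Eu d)) b}.ncard < 2 * d ^ 2 := by
  have hd0 : 0 < d := by omega
  obtain ⟨δ, hδ, hδ1, ε, hε, hε1, hcore⟩ := core hd0
  refine ⟨{K | dist K ⟨C0 d δ hδ.le, body_C0 hδ.le hδ1⟩ < ε / 12}, ?_, ?_, ?_⟩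
  · exact isOpen_ball
  · exact ⟨⟨C0 d δ hδ.le, body_C0 hδ.le hδ1⟩, by
      show dist _ _ < _
      rw [dist_self]; positivity⟩
  · intro K hK
    have hdist : dist (C0 d δ hδ.le) K.1 < ε / 12 := by
      have h1 : dist K ⟨C0 d δ hδ.le, body_C0 hδ.le hδ1⟩ < ε / 12 := hK
      rw [Subtype.dist_eq, dist_comm] at h1
      exact h1
    obtain ⟨hs1, hs2⟩ := sandwich hδ.le hδ1 hε hε1 K.2 hdist
    set N : (Fin d → ℝ) → ℝ := fun x => gauge (K.1 : Set (Eu d)) (WithLp.toLp 2 x) with hN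
    have hNc : Continuous N := by
      obtain ⟨r, hr, hball⟩ := exists_ball K.2
      have hnhds : (K.1 : Set (Eu d)) ∈ 𝓝 (0 : Eu d) :=
        Filter.mem_of_superset (closedBall_mem_nhds (0 : Eu d) hr) hball
      exact (continuous_gauge K.2.1 hnhds).comp (PiLp.continuous_toLp 2 _)
    have hNs : ∀ (c : ℝ) x, 0 < c → N (c • x) = c * N x := by
      intro c x hc
      simp only [hN]
      rw [WithLp.toLp_smul, gauge_smul_of_nonneg hc.le, smul_eq_mul]
    obtain ⟨V, hV0, hV1, hV2, hV3⟩ := hcore N hNc hNs hs1 hs2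
    obtain ⟨b, hb⟩ := exists_basis hV0.ne'
    have hN0 : ∀ x, 0 ≤ N x := fun x => gauge_nonneg _
    have hlam : ∀ b' : Basis (Fin d) ℝ (Eu d), lamf (K.1 : Set (Eu d)) b' =
        sInf ((fun z : Fin d → ℤ => N (mat b' *ᵥ zr z)) '' {z | z ≠ 0}) := by
      intro b'
      unfold lamf
      rw [lam_set]
    have hne : ({z : Fin d → ℤ | z ≠ 0}).Nonempty := by
      refine ⟨fun _ => 1, fun h => ?_⟩
      have := congrFun h ⟨0, hd0⟩
      simp at this
    have hbdd : ∀ b' : Basis (Fin d) ℝ (Eu d),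
        BddBelow ((fun z : Fin d → ℤ => N (mat b' *ᵥ zr z)) '' {z | z ≠ 0}) := by
      intro b'
      refine ⟨0, ?_⟩
      rintro r ⟨z, _, rfl⟩
      exact hN0 _
    have hlam_le : ∀ (b' : Basis (Fin d) ℝ (Eu d)) (z : Fin d → ℤ), z ≠ 0 →
        lamf (K.1 : Set (Eu d)) b' ≤ N (mat b' *ᵥ zr z) := by
      intro b' z hz
      rw [hlam]
      exact csInf_le (hbdd b') ⟨z, hz, rfl⟩
    have hlam_nonneg : ∀ b' : Basis (Fin d) ℝ (Eu d), 0 ≤ lamf (K.1 : Set (Eu d)) b' := by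
      intro b'
      rw [hlam]
      apply le_csInf (hne.image _)
      rintro r ⟨z, _, rfl⟩
      exact hN0 _
    have hlam1 : 1 ≤ lamf (K.1 : Set (Eu d)) b := by
      rw [hlam]
      apply le_csInf (hne.image _)
      rintro r ⟨z, hz, rfl⟩
      rw [hb]
      exact hV1 z hz
    refine ⟨b, fun b' => ?_, ?_⟩
    · unfold rho
      rw [det_eq_mat, det_eq_mat, hb, abs_of_pos hV0]
      have hb0 : 0 < |(mat b').det| := abs_pos.mpr (det_mat_ne_zero b')
      rcases eq_or_lt_of_le (hlam_nonneg b') with h | h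
      · rw [← h, zero_pow hd0.ne', zero_div]
        positivity
      · have h1 := hV2 ((lamf (K.1 : Set (Eu d)) b')⁻¹ • mat b') (by
          rw [Matrix.det_smul]
          exact mul_ne_zero (pow_ne_zero _ (inv_ne_zero h.ne')) (det_mat_ne_zero b')) (by
          intro z hz
          rw [Matrix.smul_mulVec, hNs _ _ (inv_pos.mpr h)]
          have h2 := hlam_le b' z hz
          rw [inv_mul_eq_div, le_div_iff₀ h, one_mul]
          exact h2)
        rw [Matrix.det_smul, abs_mul, Fintype.card_fin, inv_pow, abs_inv,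
          abs_of_pos (pow_pos h d), inv_mul_eq_div, le_div_iff₀ (pow_pos h d)] at h1
        have h2 : lamf (K.1 : Set (Eu d)) b' ^ d / |(mat b').det| ≤ 1 / V.det := by
          rw [div_le_div_iff₀ hb0 hV0]
          linarith
        refine h2.trans ?_
        apply div_le_div_of_nonneg_right _ hV0.le
        exact one_le_pow₀ hlam1
    · have hsub : {l | l ∈ Lam b ∧ l ≠ 0 ∧ gauge (K.1 : Set (Eu d)) l = lamf (K.1 : Set (Eu d)) b} ⊆
          (fun z : Fin d → ℤ => (WithLp.toLp 2 (V *ᵥ zr z) : Eu d)) '' {z | Small z} := by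
        rintro l ⟨hl, hl0, hll⟩
        obtain ⟨z, rfl⟩ := (mem_Lam b l).mp hl
        have hz : z ≠ 0 := by
          intro h
          exact hl0 ((toLp_mulVec_eq_zero (det_mat_ne_zero b) z).mpr h)
        rw [hb] at hll ⊢
        refine ⟨z, hV3 (lamf (K.1 : Set (Eu d)) b) (fun w hw => ?_) z hz hll, rfl⟩
        have := hlam_le b w hw
        rwa [hb] at this
      obtain ⟨hf, hc⟩ := small_finite (d := d)
      have h1 := Set.ncard_le_ncard hsub (hf.image _)
      have h2 := Set.ncard_image_le (f := fun z : Fin d → ℤ => (WithLp.toLp 2 (V *ᵥ zr z) : Eu d)) hf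
      have h3 : d * (d + 1) < 2 * d ^ 2 := by nlinarith
      omega

end Pool.Agent.Helper37.Lat
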